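import Pool.Agent.Helper36.HS.Defs

/-!
# The covering property of HOD at `c` for subsets of `δ`
-/

namespace Pool.Agent.Helper36.HS

open Ordinal Cardinal ZFSet Order Pool.Agent.Helper73.HODC Pool.Agent.Helper73.HM
open Pool.Agent.Helper73.HU Pool.Agent.Helper73.HV

/-- every set of fewer than `c` ordinals below `δ` (in `V`) is covered by a set in HOD of order
type less than `c` -/
def HODCover (c : Cardinal.{0}) (δ : Ordinal.{0}) : Prop :=
  ∀ γ < c.ord, ∀ f : Ordinal.{0} → Ordinal.{0}, (∀ x < γ, f x < δ) →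
    ∃ y ∈ hodSmall c.ord δ, ∀ x < γ, f x ∈ st y

end Pool.Agent.Helper36.HS
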