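import Pool.Agent.Helper36.HS.St

/-!
# HS module LS: the initial segments are the least good sets
-/

namespace Pool.Agent.Helper36.HS.LS

open Ordinal Cardinal ZFSet Order Pool.Agent.Helper73.HODC Pool.Agent.Helper73.HE
open Pool.Agent.Helper73.HM Pool.Agent.Helper73.HU Pool.Agent.Helper73.HV
open Pool.Agent.Helper36.HS

/-- the image of a closed unbounded set under a normal function -/
theorem club_img {h : Ordinal.{0} → Ordinal.{0}} (hN : Order.IsNormal h) {i : Ordinal.{0}}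
    (hi : IsSuccLimit i) {C : Set Ordinal.{0}} (hC : UnbIn C i)
    (hC' : ∀ a < i, a ≠ 0 → UnbIn C a → a ∈ C) :
    Club {x | ∃ b ∈ C, b < i ∧ h b = x} (h i) := by
  refine ⟨?_, ?_⟩
  · intro b hb
    obtain ⟨j, hj, hbj⟩ := (hN.lt_iff_exists_lt hi).1 hb
    obtain ⟨k, hk1, hk2, hk3⟩ := hC j hj
    exact ⟨h k, ⟨k, hk1, hk3, rfl⟩, hbj.trans (hN.strictMono hk2), hN.strictMono hk3⟩
  · intro b hb hb0 hu
    obtain ⟨j, hj, hbj⟩ := (hN.lt_iff_exists_lt hi).1 hb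
    set T : Set Ordinal.{0} := {j | b ≤ h j} with hT
    have hTne : T.Nonempty := ⟨j, hbj.le⟩
    set m := sInf T with hm
    have hmT : b ≤ h m := csInf_mem hTne
    have hmin : ∀ a < m, h a < b := by
      intro a ha
      by_contra hcon
      exact absurd (csInf_le' (show a ∈ T from not_lt.1 hcon)) (not_le.2 ha)
    have hmj : m ≤ j := csInf_le' (show j ∈ T from hbj.le)
    have hm0 : m ≠ 0 := by
      intro h0
      obtain ⟨c, ⟨i', h1, h2, h3⟩, h5, h6⟩ := hu 0 (pos_iff_ne_zero.2 hb0)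
      rw [← h3] at h6
      have : h i' < h m := h6.trans_le hmT
      rw [hN.strictMono.lt_iff_lt, h0] at this
      exact absurd this (not_lt.2 zero_le)
    have hmC : UnbIn C m := by
      intro a ha
      obtain ⟨c, ⟨i', h1, h2, h3⟩, h5, h6⟩ := hu (h a) (hmin a ha)
      rw [← h3] at h5 h6
      exact ⟨i', h1, hN.strictMono.lt_iff_lt.1 h5, hN.strictMono.lt_iff_lt.1 (h6.trans_le hmT)⟩
    have hmlim : IsSuccLimit m := hmC.isSuccLimit hm0
    refine ⟨m, hC' m (hmj.trans_lt hj) hm0 hmC, hmj.trans_lt hj, ?_⟩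
    apply le_antisymm _ hmT
    rw [hN.le_iff_forall_le hmlim]
    intro a ha
    exact (hmin a ha).le

theorem good {L δ : Ordinal.{0}} {g h : Ordinal.{0} → Ordinal.{0}}
    {ρ : Ordinal.{0} → Ordinal.{0}} {cf : Ordinal.{0} → Ordinal.{0} → Ordinal.{0}}
    {R : Ordinal.{0} → Ordinal.{0} → Prop} {A₀ : Set Ordinal.{0}} {i : Ordinal.{0}}
    (hN : Order.IsNormal h) (ht : Typ L δ g h ρ cf R A₀ i) :
    Gd L ρ cf (FF R) A₀ i (h i) (Im g i) := by
  refine ⟨ht.gh, ht.low, ⟨{x | ∃ b ∈ (Set.univ : Set Ordinal.{0}), b < i ∧ h b = x}, ?_, ?_⟩,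
    ⟨ht.pred, ht.rho, ht.cc, ht.ff⟩⟩
  · refine club_img hN ht.lim ?_ fun _ _ _ _ => Set.mem_univ _
    intro a ha
    exact ⟨Order.succ a, Set.mem_univ _, Order.lt_succ a, ht.lim.succ_lt ha⟩
  · rintro x ⟨b, -, hb, rfl⟩ -
    exact ht.hb b hb

theorem lt_FF {R : Ordinal.{0} → Ordinal.{0} → Prop} {ζ s ξ : Ordinal.{0}} (hξ : ξ < ζ)
    (h : R s ξ) : ξ < FF R ζ s := by
  have h1 : (FF R ζ s) ∈ {η | ∀ i < ζ, R s i → i < η} :=
    csInf_mem ⟨ζ, fun i hi _ => hi⟩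
  exact h1 ξ hξ h

theorem ls1 : StLS1 := by
  intro L δ g h ρ cf R A₀ i C hN hCF hFF ht hC hC' htC hcof hS
  refine ⟨good hN ht, ?_⟩
  intro y hy
  by_contra hcon
  rw [Set.not_subset] at hcon
  -- the least element not in `y`
  set T : Set Ordinal.{0} := {x | x ∈ Im g i ∧ x ∉ y} with hT
  have hTne : T.Nonempty := by
    obtain ⟨x, hx1, hx2⟩ := hcon
    exact ⟨x, hx1, hx2⟩
  set ξ := sInf T with hξ
  obtain ⟨hξ1, hξ2⟩ : ξ ∈ T := csInf_mem hTne
  have hmin : ∀ x ∈ Im g i, x < ξ → x ∈ y := by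
    intro x hx hxξ
    by_contra hcon
    exact absurd (csInf_le' (show x ∈ T from ⟨hx, hcon⟩)) (not_le.2 hxξ)
  have hξs : ξ < h i := ht.gh ξ hξ1
  obtain ⟨D, hD, hDy⟩ := hy.club
  have hall : ∀ a < i, a ≠ 0 → UnbIn (Set.univ : Set Ordinal.{0}) a →
      a ∈ (Set.univ : Set Ordinal.{0}) := fun _ _ _ _ => Set.mem_univ _
  have hunb : UnbIn (Set.univ : Set Ordinal.{0}) i := by
    intro a ha
    exact ⟨Order.succ a, Set.mem_univ _, Order.lt_succ a, ht.lim.succ_lt ha⟩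
  -- the next element of `w`
  have hex : ∃ x, x ∈ y ∧ x ∈ Im g i ∧ ξ < x := by
    obtain ⟨x, ⟨hx1, b, -, hb, hbx⟩, hx2, hx3⟩ :=
      (Club.inter hcof hD (club_img hN ht.lim hunb hall)).1 ξ hξs
    refine ⟨x, hDy x hx1 hx3, ?_, hx2⟩
    rw [← hbx]
    exact ht.hb b hb
  set W : Set Ordinal.{0} := {x | x ∈ y ∧ x ∈ Im g i ∧ ξ < x} with hW
  have hWne : W.Nonempty := hex
  set η := sInf W with hη
  obtain ⟨hη1, hη2, hη3⟩ : η ∈ W := csInf_mem hWne
  have hηmin : ∀ x, x ∈ y → x ∈ Im g i → x < η → x ≤ ξ := by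
    intro x hx1 hx2 hx3
    by_contra hcon
    exact absurd (csInf_le' (show x ∈ W from ⟨hx1, hx2, not_le.1 hcon⟩)) (not_le.2 hx3)
  have hηmin' : ∀ x, x ∈ y → x ∈ Im g i → x < η → x < ξ := by
    intro x hx1 hx2 hx3
    refine lt_of_le_of_ne (hηmin x hx1 hx2 hx3) ?_
    rintro rfl
    exact hξ2 hx1
  have hηδ : η < δ := (ht.gh η hη2).trans ht.hl
  have hηlim : IsSuccLimit η := by
    rcases Ordinal.zero_or_succ_or_isSuccLimit η with h0 | ⟨η', hη'⟩ | hl
    · rw [h0] at hη3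
      exact absurd hη3 (not_lt.2 zero_le)
    · exfalso
      have h1 : η' + 1 = η := by rw [← hη']; rfl
      have h2 : η' ∈ y := hy.clo.pred η' (by rw [h1]; exact hη1)
      have h3 : η' ∈ Im g i := ht.pred η' (by rw [h1]; exact hη2)
      have h4 : η' < η := by rw [← hη']; exact Order.lt_succ η'
      have h5 := hηmin' η' h2 h3 h4
      have h6 : η ≤ ξ := by rw [← hη']; exact Order.succ_le_of_lt h5
      exact absurd hη3 (not_lt.2 h6)
    · exact hl
  rcases lt_or_eq_of_le (hCF.le η hηδ hηlim) with hlt | heq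
  · have h1 : ρ η < ξ := hηmin' _ (hy.clo.rho η hη1 hηlim) (ht.rho η hη2 hηlim) hlt
    obtain ⟨x, hx1, hx2, hx3⟩ := ht.dd η hη2 hηlim ξ hξ1 hη3
    have h2 : x ∈ y := hmin x hx1 (hx2.trans h1)
    have h3 := hηmin _ (hy.clo.cc η hη1 hηlim x h2 hx2) (ht.cc η hη2 hηlim x hx1 hx2)
      (hCF.lt η hηδ hηlim x hx2)
    exact absurd hx3 (not_lt.2 h3)
  · have hreg : HODReg η := by
      have := hCF.reg η hηδ hηlim
      rwa [heq] at this
    have hLη : L ≤ η := by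
      by_contra hcon
      have h1 : η < L := not_le.1 hcon
      have h2 : η < i := (hy.low η h1).1 hη1
      exact hξ2 ((hy.low ξ (hη3.trans h1)).2 (hη3.trans h2))
    obtain ⟨k, hk, hkξ⟩ := hξ1
    have hcl := (Club.inter hcof hD (club_img hN ht.lim hC hC'))
    have hcl2 : Club ((D ∩ {x | ∃ b ∈ C, b < i ∧ h b = x}) ∩ Set.Ioi (h k)) (h i) :=
      Club.inter hcof hcl (club_Ioi (isSuccLimit_of_cof hcof) (hN.strictMono hk))
    obtain ⟨s, hs1, ⟨⟨hs2, b, hb1, hb2, hb3⟩, hs3⟩, hs4⟩ := hS _ hcl2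
    have hkb : k < b := by
      have : h k < h b := by rw [hb3]; exact hs3
      exact hN.strictMono.lt_iff_lt.1 this
    have hR : R s ξ := by
      have := (htC b hb1 hb2).cov (by rw [hb3]; exact hs1) ξ ⟨k, hkb, hkξ⟩
      rwa [hb3] at this
    have hsy : s ∈ y := hDy s hs2 hs4
    have hsI : s ∈ Im g i := by rw [← hb3]; exact ht.hb b hb2
    have h1 : FF R η s ∈ y := hy.clo.ff η hη1 hηlim heq hLη s hsy hs1
    have h2 : FF R η s ∈ Im g i := ht.ff η hη2 hηlim heq hLη s hsI hs1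
    have h3 : FF R η s < η := hFF s hs1 η hηδ hreg hLη
    exact absurd (lt_FF hη3 hR) (not_lt.2 (hηmin _ h1 h2 h3))

end Pool.Agent.Helper36.HS.LS
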