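import Pool.Agent.Helper36.HS.Defs
import Pool.Agent.Helper73.HV.St

/-! # HS: the statements of the modules -/

namespace Pool.Agent.Helper36.HS

open Ordinal Cardinal ZFSet Order Pool.Agent.Helper73.HODC Pool.Agent.Helper73.HE
open Pool.Agent.Helper73.HM Pool.Agent.Helper73.HU Pool.Agent.Helper73.HV

/-! ### the cofinality function of HOD, the functions `FF` -/

/-- RC: definable choice of cofinal functions of HOD -/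
def StRC : Prop := ∀ δ : Ordinal.{0}, ∃ ρ cf, CofFn δ ρ cf

/-- CR: the covering relation for an atom of ordinals of cofinality `ν` -/
def StCR : Prop := ∀ (c ν : Cardinal.{0}) (δ : Ordinal.{0}) (A : Set Ordinal.{0})
  (ρ : Ordinal.{0} → Ordinal.{0}) (cf : Ordinal.{0} → Ordinal.{0} → Ordinal.{0}),
  ℵ₀ < δ.cof → HODReg δ → CofFn δ ρ cf → ν.IsRegular →
    (∀ ζ, c.ord ≤ ζ → ζ ≤ δ → HODReg ζ → ζ.cof ≠ ν) →
    DPs A → (∀ a ∈ A, a < δ ∧ a.cof = ν) → Atom δ A →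
    ∃ R : Ordinal.{0} → Ordinal.{0} → Prop, DP (fun v => R (v 0).rank (v 1).rank) ∧
      (∀ a ∈ A, OtpLt {i | i < δ ∧ R a i} c.ord) ∧ ∀ i < δ, ¬ Stat {a | a ∈ A ∧ ¬ R a i} δ

/-- FB: `FF R ζ s < ζ` for regular cardinals `ζ` of HOD -/
def StFB : Prop := ∀ (c : Cardinal.{0}) (δ ζ s : Ordinal.{0})
  (R : Ordinal.{0} → Ordinal.{0} → Prop), DP (fun v => R (v 0).rank (v 1).rank) →
    OtpLt {i | i < δ ∧ R s i} c.ord → c.ord ≤ ζ → ζ ≤ δ → HODReg ζ → FF R ζ s < ζ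

/-- FD: `FF R` is definable -/
def StFD : Prop := ∀ R : Ordinal.{0} → Ordinal.{0} → Prop,
  DP (fun v => R (v 0).rank (v 1).rank) →
    DP (fun v => FF R (v 0).rank (v 1).rank = (v 2).rank)

/-- CE: the cofinality of `δ` is `c` -/
def StCE : Prop := ∀ (c : Cardinal.{0}) (δ : Ordinal.{0}) (A : Set Ordinal.{0})
  (R : Ordinal.{0} → Ordinal.{0} → Prop), c.IsRegular → ℵ₀ < c → c.ord ≤ δ → δ < (succ c).ord →
    ℵ₀ < δ.cof → DP (fun v => R (v 0).rank (v 1).rank) → Stat A δ →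
    (∀ a ∈ A, OtpLt {i | i < δ ∧ R a i} c.ord) → (∀ i < δ, ¬ Stat {a | a ∈ A ∧ ¬ R a i} δ) →
    δ.cof = c

/-! ### clubs -/

/-- CX: existence of chains -/
def StCX : Prop := ∀ (c : Cardinal.{0}) (δ : Ordinal.{0}), c.IsRegular → ℵ₀ < c → c.ord ≤ δ →
  δ < (succ c).ord → δ.cof = c → ∃ g h, Chn c δ g h

/-- CA: conjunctions and diagonal intersections -/
def StCA : Prop := ∀ c : Cardinal.{0}, c.IsRegular → ℵ₀ < c →
  (∀ P Q : Ordinal.{0} → Prop, CAE c P → CAE c Q → CAE c (fun i => P i ∧ Q i)) ∧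
  (∀ P : Ordinal.{0} → Ordinal.{0} → Prop, (∀ k < c.ord, CAE c (P k)) →
    CAE c (fun i => ∀ k < i, P k i)) ∧
  CAE c (fun i => IsSuccLimit i) ∧
  ∀ P : Ordinal.{0} → Prop, CAE c P → CAE c (fun i => P i ∧ ∃ C : Set Ordinal.{0}, UnbIn C i ∧
    (∀ a < i, a ≠ 0 → UnbIn C a → a ∈ C) ∧ ∀ b ∈ C, b < i → P b)

/-- CF: closure of the initial segments of a chain -/
def StCF1 : Prop := ∀ (c : Cardinal.{0}) (δ : Ordinal.{0}) (g h : Ordinal.{0} → Ordinal.{0}),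
  Chn c δ g h → c.ord ≤ δ →
  (∀ f : Ordinal.{0} → Ordinal.{0} → Ordinal.{0},
    CAE c (fun i => ∀ x ∈ Im g i, ∀ y ∈ Im g i, f x y < δ → f x y ∈ Im g i)) ∧
  CAE c (fun i => ∀ ξ < c.ord, (ξ ∈ Im g i ↔ ξ < i)) ∧
  CAE c (fun i => (∀ x ∈ Im g i, x < h i) ∧ ∀ b < i, h b ∈ Im g i)

/-- TF: transfer of nonstationary sets -/
def StTF : Prop := ∀ (c : Cardinal.{0}) (δ : Ordinal.{0}) (g h : Ordinal.{0} → Ordinal.{0}),
  Chn c δ g h → ∀ (A : Set Ordinal.{0}) (Q : Ordinal.{0} → Prop),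
    ¬ Stat {a | a ∈ A ∧ ¬ Q a} δ ↔ CAE c (fun i => h i ∈ A → Q (h i))

/-- TY: typical properties -/
def StTY : Prop := ∀ (c : Cardinal.{0}) (δ : Ordinal.{0}) (g h : Ordinal.{0} → Ordinal.{0})
  (ρ : Ordinal.{0} → Ordinal.{0}) (cf : Ordinal.{0} → Ordinal.{0} → Ordinal.{0})
  (R : Ordinal.{0} → Ordinal.{0} → Prop) (A₀ : Set Ordinal.{0}),
  Chn c δ g h → c.ord ≤ δ → CofFn δ ρ cf →
    (∀ s ∈ A₀, ∀ ζ < δ, HODReg ζ → c.ord ≤ ζ → FF R ζ s < ζ) →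
    (∀ i < δ, ¬ Stat {a | a ∈ A₀ ∧ ¬ R a i} δ) →
    CAE c (fun i => Typ c.ord δ g h ρ cf R A₀ i)

/-- LS: the main combinatorial claim -/
def StLS1 : Prop := ∀ (L δ : Ordinal.{0}) (g h : Ordinal.{0} → Ordinal.{0})
  (ρ : Ordinal.{0} → Ordinal.{0}) (cf : Ordinal.{0} → Ordinal.{0} → Ordinal.{0})
  (R : Ordinal.{0} → Ordinal.{0} → Prop) (A₀ : Set Ordinal.{0}) (i : Ordinal.{0})
  (C : Set Ordinal.{0}), Order.IsNormal h → CofFn δ ρ cf →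
    (∀ s ∈ A₀, ∀ ζ < δ, HODReg ζ → L ≤ ζ → FF R ζ s < ζ) →
    Typ L δ g h ρ cf R A₀ i → UnbIn C i → (∀ a < i, a ≠ 0 → UnbIn C a → a ∈ C) →
    (∀ b ∈ C, b < i → Typ L δ g h ρ cf R A₀ b) →
    ℵ₀ < (h i).cof → Stat A₀ (h i) →
    Gd L ρ cf (FF R) A₀ i (h i) (Im g i) ∧
      ∀ y : Set Ordinal.{0}, Gd L ρ cf (FF R) A₀ i (h i) y → Im g i ⊆ y

/-- YS: the canonical sets are small and unbounded -/
def StYS : Prop := ∀ (L : Ordinal.{0}) (g h : Ordinal.{0} → Ordinal.{0})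
  (ρ : Ordinal.{0} → Ordinal.{0}) (cf F : Ordinal.{0} → Ordinal.{0} → Ordinal.{0})
  (A₀ : Set Ordinal.{0}) (i : Ordinal.{0}),
    Gd L ρ cf F A₀ i (h i) (Im g i) → ℵ₀ < (h i).cof →
    (∀ y : Set Ordinal.{0}, Gd L ρ cf F A₀ i (h i) y → Im g i ⊆ y) →
    YY L ρ cf F A₀ (h i) ⊆ Im g i ∧ UnbIn (YY L ρ cf F A₀ (h i)) (h i)

/-- YD: the canonical sets are definable -/
def StYD : Prop := ∀ (L : Ordinal.{0})
  (ρ : Ordinal.{0} → Ordinal.{0}) (cf F : Ordinal.{0} → Ordinal.{0} → Ordinal.{0})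
  (A₀ : Set Ordinal.{0}), DP (fun v => ρ (v 0).rank = (v 1).rank) →
    DP (fun v => cf (v 0).rank (v 1).rank = (v 2).rank) →
    DP (fun v => F (v 0).rank (v 1).rank = (v 2).rank) → DPs A₀ →
    DP (fun v => (v 0).rank ∈ YY L ρ cf F A₀ (v 1).rank)

/-! ### the ultrafilter -/

/-- FA: Fodor's lemma for an atom -/
def StFA : Prop := ∀ (c : Cardinal.{0}) (δ : Ordinal.{0}) (g h : Ordinal.{0} → Ordinal.{0})
  (A : Set Ordinal.{0}) (r : Ordinal.{0} → Ordinal.{0}), Chn c δ g h → Atom δ A →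
    DP (fun v => r (v 0).rank = (v 1).rank) → CAE c (fun i => h i ∈ A → r (h i) ∈ Im g i) →
    ∃ ξ < δ, ¬ Stat {a | a ∈ A ∧ r a ≠ ξ} δ

/-- XS: the transversal -/
def StXS : Prop := ∀ (c : Cardinal.{0}) (δ : Ordinal.{0}) (g h : Ordinal.{0} → Ordinal.{0})
  (A : Set Ordinal.{0}) (Y : Ordinal.{0} → Set Ordinal.{0}), Chn c δ g h → HODReg δ → DPs A →
    Atom δ A → DP (fun v => (v 0).rank ∈ Y (v 1).rank) →
    CAE c (fun i => h i ∈ A → Y (h i) ⊆ Im g i ∧ UnbIn (Y (h i)) (h i)) →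
    ∃ R : Ordinal.{0} → Ordinal.{0} → Prop, DP (fun v => R (v 0).rank (v 1).rank) ∧
      (∀ i < δ, ¬ Stat {a | a ∈ A ∧ ¬ R a i} δ) ∧
      ¬ Stat {a | a ∈ A ∧ ¬ OtpLt {i | i < δ ∧ R a i} c.ord} δ ∧
      ∀ r : Ordinal.{0} → Ordinal.{0}, DP (fun v => r (v 0).rank = (v 1).rank) →
        ¬ Stat {a | a ∈ A ∧ ¬ (r a < δ ∧ R a (r a))} δ →
        ∃ ξ < δ, ¬ Stat {a | a ∈ A ∧ r a ≠ ξ} δ

/-- FN: the image ultrafilter is fine and normal -/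
def StNF : Prop := ∀ (δ τ : Ordinal.{0}) (ρ : Cardinal.{0}) (U : ZFSet.{0})
  (R : Ordinal.{0} → Ordinal.{0} → Prop), HODUnif τ ρ U → ℵ₀ ≤ ρ →
    DP (fun v => R (v 0).rank (v 1).rank) →
    (∃ X ∈ U, ∀ a ∈ st X, OtpLt {i | i < τ ∧ R a i} δ) → (∀ i < τ, ordSet τ {a | R a i} ∈ U) →
    (∀ r : Ordinal.{0} → Ordinal.{0}, DP (fun v => r (v 0).rank = (v 1).rank) →
      ordSet τ {a | r a < τ ∧ R a (r a)} ∈ U → ∃ η < τ, ordSet τ {a | r a = η} ∈ U) →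
    ∃ W, HODNFine ρ δ τ W

/-! ### the theorem -/

/-- local form -/
def StLocal : Prop := ∀ (κ κ₀ : Cardinal.{0}), StronglyCompact κ → κ ≤ κ₀ →
  (∃ α : Ordinal.{0}, IsSuccLimit α ∧ κ.ord ≤ α ∧ α ≤ κ₀.ord ∧ α.cof < κ ∧ ¬ HODSing α) →
  ∀ (c ν : Cardinal.{0}) (δ : Ordinal.{0}), c.IsRegular → (2 : Cardinal.{0}) ^ κ₀ < c →
    c.ord ≤ δ → δ < (succ c).ord → HODReg δ → (2 : Cardinal.{0}) ^ κ₀ < δ.cof → ν.IsRegular →
    ν < κ → (∀ ζ, c.ord ≤ ζ → ζ ≤ δ → HODReg ζ → ζ.cof ≠ ν) → ∃ W, HODNFine c c.ord δ W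

/-- the theorem -/
def StMain : Prop := ∀ κ : Cardinal.{0}, StronglyCompact κ → ¬ HODHypothesis →
  ∃ θ : Cardinal.{0}, ∀ c : Cardinal.{0}, c.IsRegular → θ < c →
    (∀ τ, HODNext c.ord τ → τ.cof = ℵ₀ ∨ ∃ W, HODNFine c c.ord τ W) ∧
    ∀ δ, c.ord ≤ δ → δ < (succ c).ord → HODReg δ → θ < δ.cof →
      (∃ ν : Cardinal.{0}, ν.IsRegular ∧ ν < κ ∧
        ∀ ζ, c.ord ≤ ζ → ζ ≤ δ → HODReg ζ → ζ.cof ≠ ν) → ∃ W, HODNFine c c.ord δ W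

end Pool.Agent.Helper36.HS
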