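import Pool.Agent.Helper36.HS.St
import Pool.Agent.Helper86.HU.EX
import Pool.Agent.Helper73.HU.Fin

/-!
# HS modules FB, FD, CE
-/

namespace Pool.Agent.Helper36.HS.FBC

open Ordinal Cardinal ZFSet Order Pool.Agent.Helper73.HODC Pool.Agent.Helper73.HE
open Pool.Agent.Helper73.HM Pool.Agent.Helper73.HU Pool.Agent.Helper73.HV
open Pool.Agent.Helper36.HS

theorem fb (h : StBD) : StFB := by
  intro c δ ζ s R hR hotp hcζ hζδ hreg
  have hS : DPs {i | i < ζ ∧ R s i} :=
    (DP.rank_lt_ord 0 ζ).and (dp_subst_at (Q := fun x v => R x (v 0).rank) hR s)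
  have hO : OtpLt {i | i < ζ ∧ R s i} ζ := by
    obtain ⟨o, ho, g, h1, h2⟩ := hotp
    exact ⟨o, ho.trans_le hcζ, g, fun a ha => h1 a ⟨ha.1.trans_le hζδ, ha.2⟩,
      fun a ha b hb hab => h2 a ⟨ha.1.trans_le hζδ, ha.2⟩ b ⟨hb.1.trans_le hζδ, hb.2⟩ hab⟩
  obtain ⟨s', hs', h3⟩ := h ζ _ hreg hS (fun a ha => ha.1) hO
  have h4 : FF R ζ s ≤ succ s' :=
    csInf_le' (show succ s' ∈ {η | ∀ i < ζ, R s i → i < η} from
      fun i hi hRi => Order.lt_succ_of_le (h3 i ⟨hi, hRi⟩))
  exact h4.trans_lt (hreg.1.succ_lt hs')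

theorem fd : StFD := by
  intro R hR
  have h1 : DP (fun v => sInf {η | ∀ i < (v 0).rank, R (v 1).rank i → i < η} = (v 2).rank) := by
    refine DP.congr (Q := fun v => ((∀ i, i < (v 0).rank → R (v 1).rank i → i < (v 2).rank) ∧
      ∀ d, (∀ i, i < (v 0).rank → R (v 1).rank i → i < d) → (v 2).rank ≤ d)) ?_ fun v => ?_
    · refine DP.and ?_ ?_
      · refine DP.allO (Q := fun i v => i < (v 0).rank → R (v 1).rank i → i < (v 2).rank) ?_
        exact (DP.rank_lt 0 1).imp ((hR.rename (fun n => if n = 0 then 2 else 0)).imp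
          (DP.rank_lt 0 3))
      · refine DP.allO (Q := fun d v => (∀ i, i < (v 0).rank → R (v 1).rank i → i < d) →
          (v 2).rank ≤ d) ?_
        refine DP.imp ?_ (DP.rank_le 3 0)
        refine DP.allO (Q := fun i v => i < (v 1).rank → R (v 2).rank i → i < (v 0).rank) ?_
        exact (DP.rank_lt 0 2).imp ((hR.rename (fun n => if n = 0 then 3 else 0)).imp
          (DP.rank_lt 0 1))
    · have hne : {η | ∀ i < (v 0).rank, R (v 1).rank i → i < η}.Nonempty :=
        ⟨(v 0).rank, fun i hi _ => hi⟩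
      constructor
      · intro h
        rw [← h]
        exact ⟨csInf_mem hne, fun d hd => csInf_le' hd⟩
      · rintro ⟨h2, h3⟩
        exact le_antisymm (csInf_le' h2) (h3 _ (csInf_mem hne))
  exact h1

theorem ce (h1 : StCU) (h2 : StFB) : StCE := by
  intro c δ A R hc hunc hcδ hδc hcof hR hA hR1 hR2
  classical
  have hlim : IsSuccLimit c.ord := Cardinal.isSuccLimit_ord hc.aleph0_le
  have h0 : (0 : Ordinal.{0}) < c.ord := pos_iff_ne_zero.2 (Ordinal.isSuccLimit_iff.1 hlim).1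
  have h3 : c.ord.cof ≤ δ.cof := by
    refine h1 δ c.ord (fun a => if a ∈ A then FF R c.ord a else 0) hcof hlim ?_ ?_
    · intro a
      by_cases ha : a ∈ A
      · simp only [if_pos ha]
        exact h2 c δ c.ord a R hR (hR1 a ha) le_rfl hcδ (hodReg_of_regular hc)
      · simp only [if_neg ha]
        exact h0
    · intro i hi
      have h4 : ¬ Stat {a | a ∈ A ∧ ¬ R a i} δ := hR2 i (hi.trans_le hcδ)
      intro C hC
      by_contra hcon
      push Not at hcon
      refine h4 fun D hD => ?_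
      obtain ⟨a, ha, haC, haδ⟩ := hA _ (Club.inter hcof hC hD)
      refine ⟨a, ⟨ha, fun hRa => ?_⟩, haC.2, haδ⟩
      refine absurd haδ (not_lt.2 (hcon a ?_ haC.1))
      change i ≤ if a ∈ A then FF R c.ord a else 0
      rw [if_pos ha]
      have h7 : FF R c.ord a ∈ {η | ∀ i < c.ord, R a i → i < η} := csInf_mem ⟨c.ord, fun i hi _ => hi⟩
      exact (h7 i hi hRa).le
  rw [hc.cof_ord] at h3
  have h4 : δ.card < succ c := Cardinal.lt_ord.1 hδc
  exact le_antisymm ((Ordinal.cof_le_card δ).trans (Order.lt_succ_iff.1 h4)) h3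

end Pool.Agent.Helper36.HS.FBC
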