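import Pool.Agent.Helper36.HS.St
import Pool.Agent.Helper86.HU.EX

/-!
# HS module YD: the canonical sets are definable
-/

namespace Pool.Agent.Helper36.HS.YD

open Ordinal Cardinal ZFSet Order Pool.Agent.Helper73.HODC Pool.Agent.Helper73.HE
open Pool.Agent.Helper73.HM Pool.Agent.Helper73.HU Pool.Agent.Helper73.HV
open Pool.Agent.Helper36.HS

variable {L : Ordinal.{0}} {ρ : Ordinal.{0} → Ordinal.{0}}
  {cf F : Ordinal.{0} → Ordinal.{0} → Ordinal.{0}} {A₀ : Set Ordinal.{0}}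

/-- the definition of `Gd` for coded sets -/
def GdF (L : Ordinal.{0}) (ρ : Ordinal.{0} → Ordinal.{0})
    (cf F : Ordinal.{0} → Ordinal.{0} → Ordinal.{0}) (A₀ : Set Ordinal.{0})
    (a s : Ordinal.{0}) (z : ZFSet.{0}) : Prop :=
  (∀ ξ, ξ ∈ st z → ξ < s) ∧ (∀ ξ, ξ < L → (ξ ∈ st z ↔ ξ < a)) ∧
  (∃ z' : ZFSet.{0}, Club (st z') s ∧ ∀ ξ, ξ ∈ st z' → ξ < s → ξ ∈ st z) ∧
  (∀ ξ, (∃ η, (ξ < η ∧ ∀ ζ, ξ < ζ → η ≤ ζ) ∧ η ∈ st z) → ξ ∈ st z) ∧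
  (∀ η, η ∈ st z → DNLim η → ∃ b, ρ η = b ∧ b ∈ st z) ∧
  (∀ η, η ∈ st z → DNLim η → ∀ x, x ∈ st z → (∃ b, ρ η = b ∧ x < b) →
    ∃ b, cf η x = b ∧ b ∈ st z) ∧
  ∀ ζ, ζ ∈ st z → DNLim ζ → ρ ζ = ζ → ¬ ζ < L → ∀ t, t ∈ st z → t ∈ A₀ →
    ∃ b, F ζ t = b ∧ b ∈ st z

theorem gd_iff {a s : Ordinal.{0}} {z : ZFSet.{0}} :
    Gd L ρ cf F A₀ a s (st z) ↔ GdF L ρ cf F A₀ a s z := by
  constructor
  · intro h
    refine ⟨h.sub, h.low, ?_, ?_, ?_, ?_, ?_⟩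
    · obtain ⟨C, hC, hC'⟩ := h.club
      obtain ⟨z', hz', hz''⟩ := dn_exists_code_club hC
      exact ⟨z', hz', fun ξ h1 h2 => hC' ξ ((hz'' ξ).1 h1).1 h2⟩
    · rintro ξ ⟨η, ⟨h1, h2⟩, h3⟩
      refine h.clo.pred ξ ?_
      have h4 : η = ξ + 1 := le_antisymm (h2 _ (Order.lt_add_one_iff.2 le_rfl))
        (Order.add_one_le_of_lt h1)
      rwa [← h4]
    · intro η h1 h2
      exact ⟨_, rfl, h.clo.rho η h1 (dn_lim_iff.1 h2)⟩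
    · rintro η h1 h2 x hx ⟨b, rfl, hb⟩
      exact ⟨_, rfl, h.clo.cc η h1 (dn_lim_iff.1 h2) x hx hb⟩
    · intro ζ h1 h2 h3 h4 t ht htA
      exact ⟨_, rfl, h.clo.ff ζ h1 (dn_lim_iff.1 h2) h3 (not_lt.1 h4) t ht htA⟩
  · rintro ⟨h1, h2, ⟨z', h3, h3'⟩, h4, h5, h6, h7⟩
    refine ⟨h1, h2, ⟨st z', h3, h3'⟩, ⟨?_, ?_, ?_, ?_⟩⟩
    · intro ξ hξ
      exact h4 ξ ⟨ξ + 1, ⟨Order.lt_add_one_iff.2 le_rfl, fun ζ hζ => Order.add_one_le_of_lt hζ⟩, hξ⟩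
    · intro η hη hl
      obtain ⟨b, hb, hb'⟩ := h5 η hη (dn_lim_iff.2 hl)
      rwa [hb]
    · intro η hη hl x hx hxρ
      obtain ⟨b, hb, hb'⟩ := h6 η hη (dn_lim_iff.2 hl) x hx ⟨_, rfl, hxρ⟩
      rwa [hb]
    · intro ζ hζ hl hρ hL t ht htA
      obtain ⟨b, hb, hb'⟩ := h7 ζ hζ (dn_lim_iff.2 hl) hρ (not_lt.2 hL) t ht htA
      rwa [hb]

section
variable (hρ : DP (fun v => ρ (v 0).rank = (v 1).rank))
  (hcf : DP (fun v => cf (v 0).rank (v 1).rank = (v 2).rank))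
  (hF : DP (fun v => F (v 0).rank (v 1).rank = (v 2).rank)) (hA : DPs A₀)
include hρ hcf hF hA

theorem dp_gd (i j k : ℕ) :
    DP (fun v => Gd L ρ cf F A₀ (v i).rank (v j).rank (st (v k))) := by
  have hρ' : ∀ i j : ℕ, DP (fun v => ρ (v i).rank = (v j).rank) := fun i j =>
    hρ.rename (fun n => if n = 0 then i else j)
  have hcf' : ∀ i j k : ℕ, DP (fun v => cf (v i).rank (v j).rank = (v k).rank) := fun i j k =>
    hcf.rename (fun n => if n = 0 then i else if n = 1 then j else k)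
  have hF' : ∀ i j k : ℕ, DP (fun v => F (v i).rank (v j).rank = (v k).rank) := fun i j k =>
    hF.rename (fun n => if n = 0 then i else if n = 1 then j else k)
  refine DP.congr (Q := fun v => GdF L ρ cf F A₀ (v i).rank (v j).rank (v k)) ?_
    fun v => gd_iff
  refine DP.and ?_ (DP.and ?_ (DP.and ?_ (DP.and ?_ (DP.and ?_ (DP.and ?_ ?_)))))
  · exact DP.allO (Q := fun ξ v => ξ ∈ st (v k) → ξ < (v j).rank)
      ((DP.st 0 (k + 1)).imp (DP.rank_lt 0 (j + 1)))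
  · exact DP.allO (Q := fun ξ v => ξ < L → (ξ ∈ st (v k) ↔ ξ < (v i).rank))
      ((DP.rank_lt_ord 0 L).imp ((DP.st 0 (k + 1)).iff (DP.rank_lt 0 (i + 1))))
  · refine DP.ex (Q := fun z' v => Club (st z') (v j).rank ∧ ∀ ξ, ξ ∈ st z' → ξ < (v j).rank →
      ξ ∈ st (v k)) ?_
    refine (DP.of (dfn_club 0 (j + 1))).and ?_
    exact DP.allO (Q := fun ξ v => ξ ∈ st (v 0) → ξ < (v (j + 1)).rank → ξ ∈ st (v (k + 1)))
      ((DP.st 0 1).imp ((DP.rank_lt 0 (j + 2)).imp (DP.st 0 (k + 2))))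
  · refine DP.allO (Q := fun ξ v => (∃ η, (ξ < η ∧ ∀ ζ, ξ < ζ → η ≤ ζ) ∧ η ∈ st (v k)) →
      ξ ∈ st (v k)) ?_
    refine DP.imp ?_ (DP.st 0 (k + 1))
    refine DP.exO (Q := fun η v => ((v 0).rank < η ∧ ∀ ζ, (v 0).rank < ζ → η ≤ ζ) ∧
      η ∈ st (v (k + 1))) ?_
    refine DP.and (DP.and (DP.rank_lt 1 0) ?_) (DP.st 0 (k + 2))
    exact DP.allO (Q := fun ζ v => (v 1).rank < ζ → (v 0).rank ≤ ζ)
      ((DP.rank_lt 2 0).imp (DP.rank_le 1 0))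
  · refine DP.allO (Q := fun η v => η ∈ st (v k) → DNLim η → ∃ b, ρ η = b ∧ b ∈ st (v k)) ?_
    refine (DP.st 0 (k + 1)).imp ((DP.of (dn_dfn_lim 0)).imp ?_)
    exact DP.exO (Q := fun b v => ρ (v 0).rank = b ∧ b ∈ st (v (k + 1)))
      ((hρ' 1 0).and (DP.st 0 (k + 2)))
  · refine DP.allO (Q := fun η v => η ∈ st (v k) → DNLim η → ∀ x, x ∈ st (v k) →
      (∃ b, ρ η = b ∧ x < b) → ∃ b, cf η x = b ∧ b ∈ st (v k)) ?_
    refine (DP.st 0 (k + 1)).imp ((DP.of (dn_dfn_lim 0)).imp ?_)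
    refine DP.allO (Q := fun x v => x ∈ st (v (k + 1)) → (∃ b, ρ (v 0).rank = b ∧ x < b) →
      ∃ b, cf (v 0).rank x = b ∧ b ∈ st (v (k + 1))) ?_
    refine (DP.st 0 (k + 2)).imp (DP.imp ?_ ?_)
    · exact DP.exO (Q := fun b v => ρ (v 1).rank = b ∧ (v 0).rank < b)
        ((hρ' 2 0).and (DP.rank_lt 1 0))
    · exact DP.exO (Q := fun b v => cf (v 1).rank (v 0).rank = b ∧ b ∈ st (v (k + 2)))
        ((hcf' 2 1 0).and (DP.st 0 (k + 3)))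
  · refine DP.allO (Q := fun ζ v => ζ ∈ st (v k) → DNLim ζ → ρ ζ = ζ → ¬ ζ < L →
      ∀ t, t ∈ st (v k) → t ∈ A₀ → ∃ b, F ζ t = b ∧ b ∈ st (v k)) ?_
    refine (DP.st 0 (k + 1)).imp ((DP.of (dn_dfn_lim 0)).imp ((hρ' 0 0).imp
      ((DP.rank_lt_ord 0 L).not.imp ?_)))
    refine DP.allO (Q := fun t v => t ∈ st (v (k + 1)) → t ∈ A₀ →
      ∃ b, F (v 0).rank t = b ∧ b ∈ st (v (k + 1))) ?_
    refine (DP.st 0 (k + 2)).imp ((hA.at 0).imp ?_)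
    exact DP.exO (Q := fun b v => F (v 1).rank (v 0).rank = b ∧ b ∈ st (v (k + 2)))
      ((hF' 2 1 0).and (DP.st 0 (k + 3)))

omit hρ hcf hF hA in
theorem code {s : Ordinal.{0}} {y : Set Ordinal.{0}} (h : ∀ ξ ∈ y, ξ < s) :
    ∃ z : ZFSet.{0}, st z = y := by
  obtain ⟨z, hz⟩ := exists_st y s
  refine ⟨z, ?_⟩
  rw [hz]
  ext a
  exact ⟨fun h' => h'.1, fun h' => ⟨h', h a h'⟩⟩

omit hρ hcf hF hA in
theorem lst_iff {a s ξ : Ordinal.{0}} : ξ ∈ Lst L ρ cf F A₀ a s ↔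
    ∀ z : ZFSet.{0}, Gd L ρ cf F A₀ a s (st z) → ξ ∈ st z := by
  constructor
  · intro h z hz
    exact h _ hz
  · intro h y hy
    obtain ⟨z, rfl⟩ := code hy.sub
    exact h z hy

theorem dp_lst (i j k : ℕ) :
    DP (fun v => (v k).rank ∈ Lst L ρ cf F A₀ (v i).rank (v j).rank) := by
  refine DP.congr (Q := fun v => ∀ z : ZFSet.{0}, Gd L ρ cf F A₀ (v i).rank (v j).rank (st z) →
    (v k).rank ∈ st z) ?_ fun v => lst_iff
  exact DP.all (Q := fun z v => Gd L ρ cf F A₀ (v i).rank (v j).rank (st z) →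
    (v k).rank ∈ st z) ((dp_gd hρ hcf hF hA (i + 1) (j + 1) 0).imp (DP.st (k + 1) 0))

theorem dp_gdlst (i j : ℕ) :
    DP (fun v => Gd L ρ cf F A₀ (v i).rank (v j).rank
      (Lst L ρ cf F A₀ (v i).rank (v j).rank)) := by
  refine DP.congr (Q := fun v => ∃ z : ZFSet.{0}, (∀ ξ, ξ ∈ st z ↔
    ξ ∈ Lst L ρ cf F A₀ (v i).rank (v j).rank) ∧ Gd L ρ cf F A₀ (v i).rank (v j).rank (st z))
    ?_ fun v => ?_
  · refine DP.ex (Q := fun z v => (∀ ξ, ξ ∈ st z ↔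
      ξ ∈ Lst L ρ cf F A₀ (v i).rank (v j).rank) ∧ Gd L ρ cf F A₀ (v i).rank (v j).rank (st z)) ?_
    refine DP.and ?_ (dp_gd hρ hcf hF hA (i + 1) (j + 1) 0)
    exact DP.allO (Q := fun ξ v => ξ ∈ st (v 0) ↔
      ξ ∈ Lst L ρ cf F A₀ (v (i + 1)).rank (v (j + 1)).rank)
      ((DP.st 0 1).iff (dp_lst hρ hcf hF hA (i + 2) (j + 2) 0))
  · constructor
    · intro h
      obtain ⟨z, hz⟩ := code h.sub
      refine ⟨z, fun ξ => by rw [hz], ?_⟩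
      rw [hz]
      exact h
    · rintro ⟨z, hz, h⟩
      have h1 : st z = Lst L ρ cf F A₀ (v i).rank (v j).rank := Set.ext hz
      rwa [← h1]

theorem dp_lea (i j : ℕ) : DP (fun v => lea L ρ cf F A₀ (v i).rank = (v j).rank) :=
  Pool.Agent.Helper86.HU.EX.dp_sInf (S := fun s => {a | Gd L ρ cf F A₀ a s (Lst L ρ cf F A₀ a s)})
    (dp_gdlst hρ hcf hF hA 1 0) i j

theorem dp_yy : DP (fun v => (v 0).rank ∈ YY L ρ cf F A₀ (v 1).rank) := by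
  refine DP.congr (Q := fun v => ∃ a, lea L ρ cf F A₀ (v 1).rank = a ∧
    (v 0).rank ∈ Lst L ρ cf F A₀ a (v 1).rank) ?_ fun v => ?_
  · exact DP.exO (Q := fun a v => lea L ρ cf F A₀ (v 1).rank = a ∧
      (v 0).rank ∈ Lst L ρ cf F A₀ a (v 1).rank)
      ((dp_lea hρ hcf hF hA 2 0).and (dp_lst hρ hcf hF hA 0 2 1))
  · constructor
    · intro h
      exact ⟨_, rfl, h⟩
    · rintro ⟨a, rfl, h⟩
      exact h

end

theorem yd : StYD := fun _ _ _ _ _ hρ hcf hF hA => dp_yy hρ hcf hF hA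

end Pool.Agent.Helper36.HS.YD
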