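import Pool.Agent.Helper36.HS.St

/-!
# HS module YS: the canonical sets are small and unbounded
-/

namespace Pool.Agent.Helper36.HS.YS

open Ordinal Cardinal ZFSet Order Pool.Agent.Helper73.HODC Pool.Agent.Helper73.HE
open Pool.Agent.Helper73.HM Pool.Agent.Helper73.HU Pool.Agent.Helper73.HV
open Pool.Agent.Helper36.HS

variable {L : Ordinal.{0}} {ρ : Ordinal.{0} → Ordinal.{0}}
  {cf F : Ordinal.{0} → Ordinal.{0} → Ordinal.{0}} {A₀ : Set Ordinal.{0}}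

theorem clo_inter {y z : Set Ordinal.{0}} (hy : Clo L ρ cf F A₀ y) (hz : Clo L ρ cf F A₀ z) :
    Clo L ρ cf F A₀ (y ∩ z) :=
  ⟨fun ξ h => ⟨hy.pred ξ h.1, hz.pred ξ h.2⟩,
    fun η h hl => ⟨hy.rho η h.1 hl, hz.rho η h.2 hl⟩,
    fun η h hl x hx hxρ => ⟨hy.cc η h.1 hl x hx.1 hxρ, hz.cc η h.2 hl x hx.2 hxρ⟩,
    fun ζ h hl h1 h2 s hs hsA => ⟨hy.ff ζ h.1 hl h1 h2 s hs.1 hsA,
      hz.ff ζ h.2 hl h1 h2 s hs.2 hsA⟩⟩

theorem gd_inter {a b s : Ordinal.{0}} {y z : Set Ordinal.{0}} (hs : ℵ₀ < s.cof) (hab : a ≤ b)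
    (hy : Gd L ρ cf F A₀ a s y) (hz : Gd L ρ cf F A₀ b s z) : Gd L ρ cf F A₀ a s (y ∩ z) := by
  obtain ⟨C, hC, hC'⟩ := hy.club
  obtain ⟨D, hD, hD'⟩ := hz.club
  refine ⟨fun ξ h => hy.sub ξ h.1, ?_, ⟨C ∩ D, Club.inter hs hC hD, ?_⟩,
    clo_inter hy.clo hz.clo⟩
  · intro ξ hξ
    constructor
    · intro h
      exact (hy.low ξ hξ).1 h.1
    · intro h
      exact ⟨(hy.low ξ hξ).2 h, (hz.low ξ hξ).2 (h.trans_le hab)⟩
  · intro ξ hξ hξs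
    exact ⟨hC' ξ hξ.1 hξs, hD' ξ hξ.2 hξs⟩

theorem ys : StYS := by
  intro L g h ρ cf F A₀ i hG hcof hle
  have hL : Lst L ρ cf F A₀ i (h i) = Im g i := by
    apply Set.Subset.antisymm
    · intro ξ hξ
      exact hξ _ hG
    · intro ξ hξ y hy
      exact hle y hy hξ
  have hi : i ∈ {a | Gd L ρ cf F A₀ a (h i) (Lst L ρ cf F A₀ a (h i))} := by
    change Gd L ρ cf F A₀ i (h i) (Lst L ρ cf F A₀ i (h i))
    rw [hL]
    exact hG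
  have hlea : lea L ρ cf F A₀ (h i) ≤ i := csInf_le' hi
  have hgd : Gd L ρ cf F A₀ (lea L ρ cf F A₀ (h i)) (h i) (YY L ρ cf F A₀ (h i)) :=
    csInf_mem (s := {a | Gd L ρ cf F A₀ a (h i) (Lst L ρ cf F A₀ a (h i))}) ⟨i, hi⟩
  refine ⟨?_, ?_⟩
  · intro ξ hξ
    exact (hξ _ (gd_inter hcof hlea hgd hG)).2
  · obtain ⟨C, hC, hC'⟩ := hgd.club
    intro a ha
    obtain ⟨b, hb1, hb2, hb3⟩ := hC.1 a ha
    exact ⟨b, hC' b hb1 hb3, hb2, hb3⟩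

end Pool.Agent.Helper36.HS.YS
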