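import Pool.Agent.Helper36.HS.Fin
import Pool.Agent.Helper36.HS.LS
import Pool.Agent.Helper36.HS.YS
import Pool.Agent.Helper36.HS.YD
import Pool.Agent.Helper4.HS.CX
import Pool.Agent.Helper4.HS.TY
import Pool.Agent.Helper21.HS.TF
import Pool.Agent.Helper21.HS.FA
import Pool.Agent.Helper68.HS.XS
import Pool.Agent.Helper8.HS.CA
import Pool.Agent.Helper37.HS.CF
import Pool.Agent.Helper69.HS.NF
import Pool.Agent.Helper12.HS.RC
import Pool.Agent.Helper36.HS.FBC

import Pool.Agent.Helper73.HU.Top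
import Pool.Agent.Helper73.HV.MM
import Pool.Agent.Helper73.HV.PS
import Pool.Agent.Helper73.HV.JB
import Pool.Agent.Helper76.HV.CP
import Pool.Agent.Helper76.HV.EXG
import Pool.Agent.Helper76.HV.KEY
import Pool.Agent.Helper17.HV.PB
import Pool.Agent.Helper22.HV.RX
import Pool.Agent.Helper38.HV.CU
import Pool.Agent.Helper68.HV.NU

/-! # HS: the theorem, all modules assembled -/

namespace Pool.Agent.Helper36.HS

open Pool.Agent Pool.Agent.Helper73.HM Pool.Agent.Helper73.HU Pool.Agent.Helper73.HV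

theorem main : StMain2 := by
  have hRefl : StRefl := refl_of Helper32.HM.ra Helper38.HM.rc Helper11.HM.RS.rs
  have hTC : StTC := Helper77.HM.TC.tc
  have hTS : StTS := Helper12.HM.ts hTC
  have hTD : StTD := td_of hTC hTS
  have hOZ : StOZ := Helper30.HM.oz hTD
  have hHP : StHP := hp_of hTD hOZ
  have hLE : StLE := Helper14.HM.le hTC hOZ
  have hLS : StLS := Helper62.HM.LS.ls hTD
  have hLD : StLD := ld_of hHP hLS
  have hNE : StNE := ne hLE
  have hND : StND := nd re hLD
  have hUD : StUD := ud_of hHP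
  have hRF : StRF := Helper68.HU.rf hRefl Helper68.HU.nmap Helper68.HU.tr
  have hFO : StFO := Helper68.HU.fo Helper68.HU.nmap Helper68.HU.tr
  have hCVO : StCVO := cvo hRF Helper66.HM.dj
  have hNSO : StNSO := nso hLE hNE hND
  have hNAO : StNAO := nao hLE hNE hND hNSO
  have hEB : StEB := Helper31.HU.EB.eb
  have hBD : StBD := Helper8.HU.bd hEB
  have hWN : StWN := Helper62.HU.WN.wn hFO
  have hKEY : StKEY := Helper76.HV.key hEB
  have hCU : StCU := Helper38.HVCU.cu Helper68.HU.nmap Helper68.HU.tr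
  have hPB : StPB := Helper17.HV.pb Helper68.HU.nmap Helper68.HU.tr
  have hCP : StCP := Helper76.HV.cp Helper76.HV.exg hLE hLD
  have hM : StM := mthm hCP (ps hFO hPB) hKEY (jb hBD) hCU
  have hFB : StFB := FBC.fb hBD
  have hTF : StTF := Helper21.HS.tf Helper68.HU.tr
  have hFA : StFA := Helper21.HS.fa Helper68.HU.tr
  have hL : StLocal2 := local_of hCVO hNAO hRF (Helper48.HU.UU.uu hUD) Helper14.HM.cf
    (Helper68.HV.nu Helper14.HM.cf Helper68.HU.nmap) (Helper12.HS.rc hHP hLE hLD)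
    (Helper22.HV.RX.rx hWN hKEY) hFB FBC.fd
    (FBC.ce hCU hFB) (cx Helper68.HU.nmap) Helper8.HS.CA.ca
    (ty Helper8.HS.CA.ca Helper37.HS.cf1 hTF) LS.ls1 YS.ys YD.yd
    (Helper68.HS.XS.xs hFA hTF hEB Helper8.HS.CA.ca) (Helper69.HS.NF.nf hHP)
    (ps hFO hPB) hKEY (jb hBD) hPB
  exact main_of hL Helper73.HU.main_local hM Helper96.HM.hy

end Pool.Agent.Helper36.HS
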