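import Pool.Agent.Helper36.HS.St
import Pool.Agent.Helper73.HV.MM

/-!
# HS: covering relations for atoms of ordinals of cofinality `ν`; the dichotomy
-/

namespace Pool.Agent.Helper36.HS

open Ordinal Cardinal ZFSet Order Pool.Agent.Helper73.HODC Pool.Agent.Helper73.HE
open Pool.Agent.Helper73.HM Pool.Agent.Helper73.HU Pool.Agent.Helper73.HV

/-- a definable stationary subset of an atom is an atom -/
theorem atom_sub {δ : Ordinal.{0}} {A B : Set Ordinal.{0}} (h : Atom δ A) (hB : B ⊆ A)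
    (hS : Stat B δ) : Atom δ B :=
  ⟨hS, fun X hX hX' hs => h.2 X hX hX' ⟨hs.1.mono fun a ha _ => ⟨hB ha.1, ha.2⟩,
    hs.2.mono fun a ha _ => ⟨hB ha.1, ha.2⟩⟩⟩

/-- an atom is not split by a definable set -/
theorem atom_split {δ : Ordinal.{0}} {A T : Set Ordinal.{0}} (h : Atom δ A) (hT : DPs T)
    (h1 : Stat {a | a ∈ A ∧ a ∈ T} δ) : ¬ Stat {a | a ∈ A ∧ a ∉ T} δ := by
  intro h2
  refine h.2 (ordSet δ T) (od_ordSet hT δ) (ordSet_sub _ _)
    ⟨h1.mono fun a ha hat => ⟨ha.1, mem_st_ordSet.2 ⟨hat, ha.2⟩⟩,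
      h2.mono fun a ha _ => ⟨ha.1, fun h7 => ha.2 (mem_st_ordSet.1 h7).2⟩⟩

/-- the theorem MA for an arbitrary system of positions -/
theorem ma' (h2 : StPS) (h3 : StKEY) (h4 : StJB) (h5 : StPB) {μ τ : Ordinal.{0}}
    {A : Set Ordinal.{0}} {C : Ordinal.{0} → Ordinal.{0} → Ordinal.{0} → Prop}
    (hτr : HODReg τ) (hμτ : μ < τ) (hμ : IsSuccLimit μ) (hτ : ℵ₀ < τ.cof)
    (hne : μ.cof ≠ τ.cof) (hA : DPs A) (hat : Atom τ A) (hC : Pos μ A C) :
    ∃ γ < μ, ∀ lam, HODReg lam → γ < lam → lam ≤ μ → lam.cof = τ.cof := by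
  have hlim : IsSuccLimit τ := isSuccLimit_of_cof hτ
  let P : Ordinal.{0} → Ordinal.{0} → Ordinal.{0} → Prop := fun ξ η γ =>
    ¬ Stat {a | a ∈ A ∧ ¬ ∃ b, C a γ b ∧ ξ ≤ b ∧ b ≤ η} τ
  have hP : ∀ ξ η γ, P ξ η γ → ξ ≤ η := by
    intro ξ η γ h
    by_contra h6
    refine h (hat.1.mono fun a ha _ => ⟨ha, ?_⟩)
    rintro ⟨b, -, h7, h8⟩
    exact h6 (h7.trans h8)
  obtain ⟨γ, hγ, e, hed, he⟩ := h3 τ μ P hτr hτ hμτ (dp_P' hA hC.dp τ)
    (fun ξ ξ' η η' γ γ' h6 h7 h8 h9 h10 => h9 (h10.mono fun a ha _ => ⟨ha.1, fun h11 => ha.2 (by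
      obtain ⟨b, hb1, hb2, hb3⟩ := h11
      exact ⟨b, hC.mono a _ _ b h8 hb1, h6.trans hb2, hb3.trans h7⟩)⟩))
    (fun ξ hξ => by
      obtain ⟨η, hη, γ, hγ, hs⟩ := h2 τ μ A C hτ hμ hne hat.1 hC ξ hξ
      refine ⟨η, hη, γ, hγ, ?_⟩
      -- the set of the `a` with the property is definable, so it does not split `A`
      have hd : DPs {a | ∃ b, C a γ b ∧ ξ ≤ b ∧ b ≤ η} := by
        have h7 : DP (fun v => ∃ b, C (v 3).rank (v 2).rank b ∧ (v 0).rank ≤ b ∧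
            b ≤ (v 1).rank) := dp_interval hC.dp 3 2 0 1
        have h8 := dp_subst_at (Q := fun x v => ∃ b, C (v 2).rank (v 1).rank b ∧ x ≤ b ∧
            b ≤ (v 0).rank) h7 ξ
        have h9 := dp_subst_at (Q := fun x v => ∃ b, C (v 1).rank (v 0).rank b ∧ ξ ≤ b ∧
            b ≤ x) h8 η
        exact dp_subst_at (Q := fun x v => ∃ b, C (v 0).rank x b ∧ ξ ≤ b ∧ b ≤ η) h9 γ
      exact atom_split hat hd hs)
  refine ⟨γ, hγ, fun lam hlam hγl hlμ => ?_⟩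
  by_contra hcof
  have hlτ : lam < τ := hlμ.trans_lt hμτ
  have hinc : ∀ i j, i < j → j ≤ lam → e i < e j := fun i j hij hj =>
    e_lt (P := P) (γ := γ) (fun ξ η => hP ξ η γ) he hij (hj.trans_lt hlτ)
  have hf : ∀ a, ∃ s < lam, a ∈ A → ∀ i < lam, (∃ b, C a γ b ∧ e i ≤ b ∧ b < e (i + 1)) →
      i ≤ s := by
    intro a
    by_cases ha : a ∈ A
    · have hK : DPs {b | C a γ b} := by
        have h6 : DP (fun v => C (v 0).rank γ (v 1).rank) :=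
          dp_subst_at (Q := fun x v => C (v 0).rank x (v 1).rank)
            (hC.dp.rename (fun n => if n = 0 then 1 else if n = 1 then 0 else 2)) γ
        exact dp_subst_at (Q := fun x v => C x γ (v 0).rank) h6 a
      obtain ⟨s, hs, hs'⟩ := h4 lam γ e {b | C a γ b} hlam hγl hed hinc hK (hC.otp a ha γ hγ)
      exact ⟨s, hs, fun _ => hs'⟩
    · exact ⟨0, pos_iff_ne_zero.2 (Ordinal.isSuccLimit_iff.1 hlam.1).1,
        fun h => absurd h ha⟩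
  choose f hf1 hf2 using hf
  obtain ⟨s, hs, hs'⟩ := h5 τ lam A f hτ hlam.1 hcof hat.1 (fun a _ _ => hf1 a)
  have hi : s + 1 < lam := by
    rw [← Order.succ_eq_add_one]
    exact hlam.1.succ_lt hs
  have hi1 : s + 1 + 1 < lam := by
    rw [← Order.succ_eq_add_one (s + 1)]
    exact hlam.1.succ_lt hi
  obtain ⟨-, η, -, hη1, hη2⟩ := he (s + 1) (hi.trans hlτ)
  refine hη1 (hs'.mono fun a ha _ => ⟨ha.1, ?_⟩)
  rintro ⟨b, hb1, hb2, hb3⟩
  have h6 := hf2 a ha.1 (s + 1) hi ⟨b, hb1, hb2, hb3.trans_lt (hη2 (s + 1 + 1)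
    (lt_add_one _) (hi1.trans hlτ))⟩
  exact absurd ((lt_add_one s).trans_le (h6.trans ha.2)) (lt_irrefl s)

section
variable {δ : Ordinal.{0}} {ρ : Ordinal.{0} → Ordinal.{0}}
  {cf : Ordinal.{0} → Ordinal.{0} → Ordinal.{0}}

/-- positions for points with constant cofinality `β` in HOD -/
theorem pos_of_const (hcf : CofFn δ ρ cf) {β : Ordinal.{0}} {A : Set Ordinal.{0}}
    (hA : ∀ a ∈ A, a < δ ∧ IsSuccLimit a ∧ ρ a = β) (hβ : IsSuccLimit β) :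
    Pos β A (fun a γ b => ∃ x, x < β ∧ x ≤ γ ∧ cf a x = b) := by
  refine ⟨?_, ?_, ?_, ?_⟩
  · refine DP.exO (Q := fun x v => x < β ∧ x ≤ (v 1).rank ∧ cf (v 0).rank x = (v 2).rank) ?_
    exact (DP.rank_lt_ord 0 β).and ((DP.rank_le 0 2).and
      (hcf.dpc.rename (fun n => if n = 0 then 1 else if n = 1 then 0 else 3)))
  · rintro a γ γ' b h ⟨x, h1, h2, h3⟩
    exact ⟨x, h1, h2.trans h, h3⟩
  · intro a ha γ hγ
    obtain ⟨h1, h2, h3⟩ := hA a ha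
    refine ⟨γ + 1, ?_, fun b => sInf {x | x < β ∧ x ≤ γ ∧ cf a x = b}, ?_, ?_⟩
    · rw [← one_add_one_eq_two, ← add_assoc]
      exact lt_add_one _
    · rintro b ⟨x, hx⟩
      have := (csInf_mem (s := {x | x < β ∧ x ≤ γ ∧ cf a x = b}) ⟨x, hx⟩).2.1
      exact Order.lt_add_one_iff.2 this
    · intro b hb b' hb' hlt
      have e1 := csInf_mem (s := {x | x < β ∧ x ≤ γ ∧ cf a x = b}) hb
      have e2 := csInf_mem (s := {x | x < β ∧ x ≤ γ ∧ cf a x = b'}) hb'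
      by_contra h5
      rcases (not_lt.1 h5).lt_or_eq with h6 | h6
      · have h7 := hcf.mono a h1 h2 _ _ h6 (by rw [h3]; exact e1.1)
        rw [e1.2.2, e2.2.2] at h7
        exact absurd hlt h7.not_gt
      · have h7 : b' = b := by
          rw [← e1.2.2, ← e2.2.2]
          exact congrArg (cf a) h6
        exact hlt.ne h7.symm
  · intro a ha ξ hξ
    obtain ⟨h1, h2, h3⟩ := hA a ha
    obtain ⟨x, hx, hx2⟩ := hcf.unb a h1 h2 ξ hξ
    have hx' : x < β := by rwa [h3] at hx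
    exact ⟨x, hx', cf a x, ⟨x, hx', le_rfl, rfl⟩, hx2.le, hcf.lt a h1 h2 x hx⟩

/-- the covering relation for an atom of ordinals with small cofinality in HOD -/
theorem cr' (h : StRX) {c : Cardinal.{0}} {A : Set Ordinal.{0}} (hcof : ℵ₀ < δ.cof)
    (hδ : HODReg δ) (hcf : CofFn δ ρ cf) (hA : DPs A)
    (hAlt : ∀ a ∈ A, a < δ ∧ IsSuccLimit a ∧ ρ a < c.ord) (hat : Atom δ A) :
    ∃ R : Ordinal.{0} → Ordinal.{0} → Prop, DP (fun v => R (v 0).rank (v 1).rank) ∧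
      (∀ a ∈ A, OtpLt {i | i < δ ∧ R a i} c.ord) ∧ ∀ i < δ, ¬ Stat {a | a ∈ A ∧ ¬ R a i} δ := by
  let C : Ordinal.{0} → Ordinal.{0} → Prop := fun a b => ∃ x, x < ρ a ∧ cf a x = b
  have hC : DP (fun v => C (v 0).rank (v 1).rank) := by
    refine DP.exO (Q := fun x v => x < ρ (v 0).rank ∧ cf (v 0).rank x = (v 1).rank) ?_
    refine DP.and ?_ (hcf.dpc.rename (fun n => if n = 0 then 1 else if n = 1 then 0 else 2))
    have h1 : DP (fun v => ∃ z : Ordinal.{0}, ρ (v 1).rank = z ∧ (v 0).rank < z) := by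
      refine DP.exO (Q := fun z v => ρ (v 1).rank = z ∧ (v 0).rank < z) ?_
      exact (hcf.dpr.rename (fun n => if n = 0 then 2 else 0)).and (DP.rank_lt 1 0)
    refine h1.congr fun v => ?_
    constructor
    · intro h2
      exact ⟨_, rfl, h2⟩
    · rintro ⟨z, rfl, h2⟩
      exact h2
  refine h c.ord δ A C hcof hδ hA (fun a ha => (hAlt a ha).1) hat hC ?_ ?_
  · intro a ha β hβ
    obtain ⟨h1, h2, h3⟩ := hAlt a ha
    obtain ⟨x, hx, hx2⟩ := hcf.unb a h1 h2 β hβ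
    exact ⟨cf a x, ⟨x, hx, rfl⟩, hx2.le, hcf.lt a h1 h2 x hx⟩
  · intro a ha
    obtain ⟨h1, h2, h3⟩ := hAlt a ha
    refine ⟨ρ a, h3, fun b => sInf {x | x < ρ a ∧ cf a x = b}, ?_, ?_⟩
    · rintro b ⟨x, hx⟩
      exact (csInf_mem (s := {x | x < ρ a ∧ cf a x = b}) ⟨x, hx⟩).1
    · intro b hb b' hb' hlt
      have e1 := csInf_mem (s := {x | x < ρ a ∧ cf a x = b}) hb
      have e2 := csInf_mem (s := {x | x < ρ a ∧ cf a x = b'}) hb'
      by_contra h5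
      rcases (not_lt.1 h5).lt_or_eq with h6 | h6
      · have h7 := hcf.mono a h1 h2 _ _ h6 e1.1
        rw [e1.2, e2.2] at h7
        exact absurd hlt h7.not_gt
      · have h7 : b' = b := by
          rw [← e1.2, ← e2.2]
          exact congrArg (cf a) h6
        exact hlt.ne h7.symm

theorem dps_rho_lt (hcf : CofFn δ ρ cf) (x : Ordinal.{0}) : DPs {a | ρ a < x} := by
  refine (DP.exO (Q := fun b v => ρ (v 0).rank = b ∧ b < x) ?_).congr fun v => ?_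
  · exact (hcf.dpr.rename (fun n => if n = 0 then 1 else 0)).and (DP.rank_lt_ord 0 x)
  · constructor
    · intro h
      exact ⟨_, rfl, h⟩
    · rintro ⟨b, h1, h2⟩
      show ρ (v 0).rank < x
      rw [h1]
      exact h2

theorem stat_diff {A B : Set Ordinal.{0}} (hcof : ℵ₀ < δ.cof) (h : Stat A δ)
    (h' : ¬ Stat {a | a ∈ A ∧ a ∉ B} δ) : Stat {a | a ∈ A ∧ a ∈ B} δ := by
  intro C hC
  by_contra hcon
  push Not at hcon
  refine h' fun D hD => ?_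
  obtain ⟨a, ha, haC, haδ⟩ := h _ (Club.inter hcof hC hD)
  refine ⟨a, ⟨ha, fun haB => ?_⟩, haC.2, haδ⟩
  exact absurd haδ (not_lt.2 (hcon a ⟨ha, haB⟩ haC.1))

/-- either the cofinality in HOD is less than `c` on an atom or there are many regular cardinals
of HOD of cofinality `ν` -/
theorem rho_dich (h2 : StPS) (h3 : StKEY) (h4 : StJB) (h5 : StPB) (hcf : CofFn δ ρ cf)
    {c ν : Cardinal.{0}} {A : Set Ordinal.{0}} (hcof : ℵ₀ < δ.cof) (hδ : HODReg δ)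
    (hA : DPs A) (hAlt : ∀ a ∈ A, a < δ ∧ IsSuccLimit a ∧ a.cof = ν) (hat : Atom δ A)
    (hνδ : ν ≠ δ.cof) (hc : c.IsRegular) (hνc : ν ≠ c) :
    (∃ A' ⊆ A, DPs A' ∧ Atom δ A' ∧ ∀ a ∈ A', ρ a < c.ord) ∨
    ∃ η, c.ord < η ∧ η ≤ δ ∧ η.cof = δ.cof ∧
      ∀ β < η, ∃ ζ, β < ζ ∧ ζ < η ∧ HODReg ζ ∧ ζ.cof = ν := by
  by_cases hcase : Stat {a | a ∈ A ∧ ρ a < c.ord} δ
  · left
    exact ⟨{a | a ∈ A ∧ ρ a < c.ord}, fun a ha => ha.1, hA.and (dps_rho_lt hcf c.ord),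
      atom_sub hat (fun a ha => ha.1) hcase, fun a ha => ha.2⟩
  right
  set B : Set Ordinal.{0} := {a | a ∈ A ∧ ¬ ρ a < c.ord} with hB
  have hBd : DPs B := hA.and (dps_rho_lt hcf c.ord).not
  have hBs : Stat B δ := by
    refine (stat_diff (B := {a | ¬ ρ a < c.ord}) hcof hat.1 fun h => hcase ?_)
    exact h.mono fun a ha _ => ⟨ha.1, not_not.1 ha.2⟩
  have hBat : Atom δ B := atom_sub hat (fun a ha => ha.1) hBs
  have hBρ : ∀ a ∈ B, a < δ ∧ IsSuccLimit a ∧ c.ord ≤ ρ a ∧ ρ a < δ ∧ HODReg (ρ a) ∧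
      (ρ a).cof = ν := by
    intro a ha
    obtain ⟨h6, h7, h8⟩ := hAlt a ha.1
    exact ⟨h6, h7, not_lt.1 ha.2, (hcf.le a h6 h7).trans_lt h6, hcf.reg a h6 h7,
      (hcf.cof a h6 h7).trans h8⟩
  set T : Set Ordinal.{0} := {η | ¬ Stat {a | a ∈ B ∧ ¬ ρ a < η} δ} with hT
  have hδT : δ ∈ T := by
    intro h
    obtain ⟨a, ha, -, -⟩ := h _ (club_univ hδ.1)
    exact ha.2 (hBρ a ha.1).2.2.2.1
  set η := sInf T with hη
  have hηT : ¬ Stat {a | a ∈ B ∧ ¬ ρ a < η} δ := csInf_mem (s := T) ⟨δ, hδT⟩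
  have hηδ : η ≤ δ := csInf_le' hδT
  have hmin : ∀ β < η, Stat {a | a ∈ B ∧ ¬ ρ a < β} δ := by
    intro β hβ
    by_contra hcon
    exact absurd (csInf_le' (show β ∈ T from hcon)) (not_le.2 hβ)
  have hcη : c.ord < η := by
    by_contra hcon
    refine hηT (hBs.mono fun a ha _ => ⟨ha, not_lt.2 ((not_lt.1 hcon).trans
      (hBρ a ha).2.2.1)⟩)
  -- `η` is a limit
  have hηl : IsSuccLimit η := by
    rcases Ordinal.zero_or_succ_or_isSuccLimit η with h0 | ⟨β, hβ⟩ | hl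
    · rw [h0] at hcη
      exact absurd hcη (not_lt.2 zero_le)
    · exfalso
      have hβη : β < η := by rw [← hβ]; exact Order.lt_succ β
      have hE : Stat {a | a ∈ B ∧ ρ a = β} δ := by
        have h6 : Stat {a | (a ∈ B ∧ ¬ ρ a < β) ∧ a ∈ {a | ρ a < η}} δ := by
          refine stat_diff hcof (hmin β hβη) fun h => hηT ?_
          exact h.mono fun a ha _ => ⟨ha.1.1, ha.2⟩
        refine h6.mono fun a ha _ => ⟨ha.1.1, ?_⟩
        have h7 : ρ a < succ β := by rw [hβ]; exact ha.2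
        exact le_antisymm (Order.lt_succ_iff.1 h7) (not_lt.1 ha.1.2)
      obtain ⟨a₀, ha₀, -, -⟩ := hE _ (club_univ hδ.1)
      obtain ⟨-, -, -, hβδ, hβr, hβc⟩ := hBρ a₀ ha₀.1
      rw [ha₀.2] at hβδ hβr hβc
      have hEd : DPs {a | a ∈ B ∧ ρ a = β} := by
        refine hBd.and ?_
        exact dp_subst_at (Q := fun x v => ρ (v 0).rank = x)
          (hcf.dpr.rename (fun n => if n = 0 then 1 else 0)) β
      obtain ⟨γ, hγ, h6⟩ := ma' h2 h3 h4 h5 hδ hβδ hβr.1 hcof (by rw [hβc]; exact hνδ) hEd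
        (atom_sub hBat (fun a ha => ha.1) hE)
        (pos_of_const hcf (fun a ha => ⟨(hBρ a ha.1).1, (hBρ a ha.1).2.1, ha.2⟩) hβr.1)
      have h7 := h6 β hβr hγ le_rfl
      rw [hβc] at h7
      exact hνδ h7
    · exact hl
  refine ⟨η, hcη, hηδ, ?_, ?_⟩
  · by_contra hcon
    have hS : Stat {a | a ∈ B ∧ a ∈ {a | ρ a < η}} δ := stat_diff hcof hBs hηT
    obtain ⟨γ, hγ, h6⟩ := h5 δ η _ ρ hcof hηl hcon hS (fun a ha _ => ha.2)
    refine atom_split hBat (T := {a | ρ a < γ + 1}) (dps_rho_lt hcf _) (h6.mono fun a ha _ =>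
      ⟨ha.1.1, Order.lt_add_one_iff.2 ha.2⟩) ?_
    exact hmin _ (by rw [← Order.succ_eq_add_one]; exact hηl.succ_lt hγ)
  · intro β hβ
    have h6 : Stat {a | (a ∈ B ∧ ¬ ρ a < β + 1) ∧ a ∈ {a | ρ a < η}} δ := by
      refine stat_diff hcof (hmin _ (by rw [← Order.succ_eq_add_one]; exact hηl.succ_lt hβ))
        fun h => hηT ?_
      exact h.mono fun a ha _ => ⟨ha.1.1, ha.2⟩
    obtain ⟨a, ⟨⟨ha1, ha2⟩, ha3⟩, -, -⟩ := h6 _ (club_univ hδ.1)
    exact ⟨ρ a, (Order.add_one_le_iff.1 (not_lt.1 ha2)), ha3, (hBρ a ha1).2.2.2.2.1,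
      (hBρ a ha1).2.2.2.2.2⟩

end

end Pool.Agent.Helper36.HS
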