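import Pool.Agent.Helper73.HV.Defs

/-!
# Supercompactness in HOD above a strongly compact cardinal.  Definitions
-/

namespace Pool.Agent.Helper36.HS

open Ordinal Cardinal ZFSet Order Pool.Agent.Helper73.HODC Pool.Agent.Helper73.HM
open Pool.Agent.Helper73.HU Pool.Agent.Helper73.HV

/-! ### The notions of the theorem -/

/-- the function `f` on `P`, with ordinal values, as a set of ordered pairs -/
noncomputable def grOn (P : ZFSet.{0}) (f : ZFSet.{0} → Ordinal.{0}) : ZFSet.{0} :=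
  ZFSet.range (fun x : {x : ZFSet.{0} // x ∈ P} => ZFSet.pair x.1 (f x.1).toZFSet)

/-- `W` is, in HOD, a `ρ`-complete normal fine ultrafilter on `hodSmall δ τ`, the set of all
subsets of `τ` of order type less than `δ`: it is `ρ`-complete and fine, and every function `f` in
HOD with `f x ∈ x` for all `x` in a set of `W` is constant on a set of `W` -/
structure HODNFine (ρ : Cardinal.{0}) (δ τ : Ordinal.{0}) (W : ZFSet.{0}) : Prop
    extends HODFine ρ δ τ W where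
  normal : ∀ f : ZFSet.{0} → Ordinal.{0}, HOD (grOn (hodSmall δ τ) f) → ∀ X ∈ W,
    (∀ x ∈ X, f x ∈ st x) → ∃ η < τ, ZFSet.sep (fun x => f x = η) (hodSmall δ τ) ∈ W

/-! ### Auxiliary definitions -/

/-- `P i` holds for all `i` in a club of `c` -/
def CAE (c : Cardinal.{0}) (P : Ordinal.{0} → Prop) : Prop :=
  ∃ C : Set Ordinal.{0}, Club C c.ord ∧ ∀ i ∈ C, i < c.ord → P i

/-- the set of the `g k`, `k < i` -/
def Im (g : Ordinal.{0} → Ordinal.{0}) (i : Ordinal.{0}) : Set Ordinal.{0} :=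
  {x | ∃ k < i, g k = x}

/-- `g` enumerates `δ` and `h` is a normal function with `h c = δ` -/
structure Chn (c : Cardinal.{0}) (δ : Ordinal.{0}) (g h : Ordinal.{0} → Ordinal.{0}) :
    Prop where
  reg : c.IsRegular
  unc : ℵ₀ < c
  gm : ∀ k < c.ord, g k < δ
  gs : ∀ x < δ, ∃ k < c.ord, g k = x
  nor : Order.IsNormal h
  top : h c.ord = δ

/-- `ρ η` is the cofinality of `η` in HOD and `cf η : ρ η → η` is increasing and cofinal, for limit
ordinals `η` below `δ` -/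
structure CofFn (δ : Ordinal.{0}) (ρ : Ordinal.{0} → Ordinal.{0})
    (cf : Ordinal.{0} → Ordinal.{0} → Ordinal.{0}) : Prop where
  dpr : DP (fun v => ρ (v 0).rank = (v 1).rank)
  dpc : DP (fun v => cf (v 0).rank (v 1).rank = (v 2).rank)
  reg : ∀ η < δ, IsSuccLimit η → HODReg (ρ η)
  le : ∀ η < δ, IsSuccLimit η → ρ η ≤ η
  cof : ∀ η < δ, IsSuccLimit η → (ρ η).cof = η.cof
  lt : ∀ η < δ, IsSuccLimit η → ∀ x < ρ η, cf η x < η
  mono : ∀ η < δ, IsSuccLimit η → ∀ x y, x < y → y < ρ η → cf η x < cf η y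
  unb : ∀ η < δ, IsSuccLimit η → ∀ ξ < η, ∃ x < ρ η, ξ < cf η x

/-- the closure properties of the sets `y`: closed under predecessors, the cofinality in HOD, the
cofinal functions, and the function `F` at the ordinals `ζ ≥ L` with `ρ ζ = ζ` (the regular
cardinals of HOD) and the elements of `A₀` -/
structure Clo (L : Ordinal.{0}) (ρ : Ordinal.{0} → Ordinal.{0})
    (cf F : Ordinal.{0} → Ordinal.{0} → Ordinal.{0}) (A₀ : Set Ordinal.{0})
    (y : Set Ordinal.{0}) : Prop where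
  pred : ∀ ξ, ξ + 1 ∈ y → ξ ∈ y
  rho : ∀ η ∈ y, IsSuccLimit η → ρ η ∈ y
  cc : ∀ η ∈ y, IsSuccLimit η → ∀ x ∈ y, x < ρ η → cf η x ∈ y
  ff : ∀ ζ ∈ y, IsSuccLimit ζ → ρ ζ = ζ → L ≤ ζ → ∀ s ∈ y, s ∈ A₀ → F ζ s ∈ y

/-- `y` is a closed subset of `s`, contains a club of `s`, and `y ∩ L = a ∩ L` -/
structure Gd (L : Ordinal.{0}) (ρ : Ordinal.{0} → Ordinal.{0})
    (cf F : Ordinal.{0} → Ordinal.{0} → Ordinal.{0}) (A₀ : Set Ordinal.{0})
    (a s : Ordinal.{0}) (y : Set Ordinal.{0}) : Prop where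
  sub : ∀ ξ ∈ y, ξ < s
  low : ∀ ξ < L, (ξ ∈ y ↔ ξ < a)
  club : ∃ C : Set Ordinal.{0}, Club C s ∧ ∀ ξ ∈ C, ξ < s → ξ ∈ y
  clo : Clo L ρ cf F A₀ y

/-- the intersection of all good sets -/
def Lst (L : Ordinal.{0}) (ρ : Ordinal.{0} → Ordinal.{0})
    (cf F : Ordinal.{0} → Ordinal.{0} → Ordinal.{0}) (A₀ : Set Ordinal.{0})
    (a s : Ordinal.{0}) : Set Ordinal.{0} :=
  {ξ | ∀ y : Set Ordinal.{0}, Gd L ρ cf F A₀ a s y → ξ ∈ y}

/-- the least `a` such that the intersection of all good sets for `a` and `s` is good -/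
noncomputable def lea (L : Ordinal.{0}) (ρ : Ordinal.{0} → Ordinal.{0})
    (cf F : Ordinal.{0} → Ordinal.{0} → Ordinal.{0}) (A₀ : Set Ordinal.{0})
    (s : Ordinal.{0}) : Ordinal.{0} :=
  sInf {a | Gd L ρ cf F A₀ a s (Lst L ρ cf F A₀ a s)}

/-- the canonical good set for `s` -/
noncomputable def YY (L : Ordinal.{0}) (ρ : Ordinal.{0} → Ordinal.{0})
    (cf F : Ordinal.{0} → Ordinal.{0} → Ordinal.{0}) (A₀ : Set Ordinal.{0})
    (s : Ordinal.{0}) : Set Ordinal.{0} :=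
  Lst L ρ cf F A₀ (lea L ρ cf F A₀ s) s

/-- `FF R ζ s` is the least strict upper bound of the elements below `ζ` of the covering
set `{i | R s i}` -/
noncomputable def FF (R : Ordinal.{0} → Ordinal.{0} → Prop) (ζ s : Ordinal.{0}) : Ordinal.{0} :=
  sInf {η | ∀ i < ζ, R s i → i < η}

/-- typical properties of the initial segments `Im g i` -/
structure Typ (L δ : Ordinal.{0}) (g h : Ordinal.{0} → Ordinal.{0})
    (ρ : Ordinal.{0} → Ordinal.{0}) (cf : Ordinal.{0} → Ordinal.{0} → Ordinal.{0})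
    (R : Ordinal.{0} → Ordinal.{0} → Prop) (A₀ : Set Ordinal.{0}) (i : Ordinal.{0}) : Prop where
  lim : IsSuccLimit i
  low : ∀ ξ < L, (ξ ∈ Im g i ↔ ξ < i)
  gh : ∀ x ∈ Im g i, x < h i
  hb : ∀ b < i, h b ∈ Im g i
  hl : h i < δ
  pred : ∀ ξ, ξ + 1 ∈ Im g i → ξ ∈ Im g i
  rho : ∀ η ∈ Im g i, IsSuccLimit η → ρ η ∈ Im g i
  cc : ∀ η ∈ Im g i, IsSuccLimit η → ∀ x ∈ Im g i, x < ρ η → cf η x ∈ Im g i
  ff : ∀ ζ ∈ Im g i, IsSuccLimit ζ → ρ ζ = ζ → L ≤ ζ → ∀ s ∈ Im g i, s ∈ A₀ →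
    FF R ζ s ∈ Im g i
  dd : ∀ η ∈ Im g i, IsSuccLimit η → ∀ ξ ∈ Im g i, ξ < η → ∃ x ∈ Im g i, x < ρ η ∧ ξ < cf η x
  cov : h i ∈ A₀ → ∀ x ∈ Im g i, R (h i) x

end Pool.Agent.Helper36.HS
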