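import Pool.Agent.Helper36.HS.St
import Pool.Agent.Helper36.HS.Defs2
import Pool.Agent.Helper36.HS.CR2
import Pool.Agent.Helper73.HU.Fin
import Pool.Agent.Helper4.HV.FN

/-!
# HS: assembly
-/

namespace Pool.Agent.Helper36.HS

open Ordinal Cardinal ZFSet Order Pool.Agent.Helper73.HODC Pool.Agent.Helper73.HE
open Pool.Agent.Helper73.HM Pool.Agent.Helper73.HU Pool.Agent.Helper73.HV

theorem CAE.mono {c : Cardinal.{0}} {P Q : Ordinal.{0} → Prop} (h : CAE c P)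
    (hPQ : ∀ i, P i → Q i) : CAE c Q := by
  obtain ⟨C, hC, h⟩ := h
  exact ⟨C, hC, fun i h1 h2 => hPQ i (h i h1 h2)⟩

theorem mem_UA {δ : Ordinal.{0}} {A T : Set Ordinal.{0}} (hT : DPs T)
    (h : ¬ Stat {a | a ∈ A ∧ a ∉ T} δ) : ordSet δ T ∈ UA δ A := by
  rw [UA, ZFSet.mem_sep]
  refine ⟨mem_hodPow.2 ⟨ordSet_sub _ _, od_ordSet hT _⟩, fun h' => h (h'.mono ?_)⟩
  intro a ha hac
  exact ⟨ha.1, fun h1 => ha.2 (mem_st_ordSet.2 ⟨hac, h1⟩)⟩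

theorem of_mem_UA {δ : Ordinal.{0}} {A T : Set Ordinal.{0}} (h : ordSet δ T ∈ UA δ A) :
    ¬ Stat {a | a ∈ A ∧ a ∉ T} δ := by
  rw [UA, ZFSet.mem_sep] at h
  refine fun h' => h.2 (h'.mono ?_)
  intro a ha _
  exact ⟨ha.1, fun h1 => ha.2 (mem_st_ordSet.1 h1).2⟩

theorem dps_otp {R : Ordinal.{0} → Ordinal.{0} → Prop} {δ τ : Ordinal.{0}}
    (hR : DP (fun v => R (v 0).rank (v 1).rank)) :
    DPs {a | OtpLt {i | i < δ ∧ R a i} τ} := by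
  have h1 := Pool.Agent.Helper4.HV.FN.dps_prx (τ := δ) hR
    (Q := fun x => OtpLt (st x) τ) (Pool.Agent.Helper4.HV.FN.dp_otpLt τ 0)
  have h2 : {a | OtpLt {i | i < δ ∧ R a i} τ} =
      {a | OtpLt (st (Pool.Agent.Helper4.HV.FN.xx δ R a)) τ} := by
    ext a
    rw [Set.mem_ofPred_eq, Set.mem_ofPred_eq, Pool.Agent.Helper4.HV.FN.st_xx]
  rw [h2]
  exact h1

/-- all regular cardinals of HOD between `c` and `δ` have cofinality `c` -/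
theorem cof_all (hPB : StPB) (hFB : StFB) {c : Cardinal.{0}} {δ : Ordinal.{0}}
    {A : Set Ordinal.{0}} {R : Ordinal.{0} → Ordinal.{0} → Prop} (hunc : ℵ₀ < δ.cof)
    (hcof : δ.cof = c) (hR : DP (fun v => R (v 0).rank (v 1).rank)) (hA : Stat A δ)
    (hR1 : ∀ a ∈ A, OtpLt {i | i < δ ∧ R a i} c.ord)
    (hR2 : ∀ i < δ, ¬ Stat {a | a ∈ A ∧ ¬ R a i} δ) (ζ : Ordinal.{0}) (h1 : c.ord ≤ ζ)
    (h2 : ζ ≤ δ) (h3 : HODReg ζ) : ζ.cof = c := by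
  by_contra hcon
  obtain ⟨γ, hγ, h4⟩ := hPB δ ζ A (fun a => FF R ζ a) hunc h3.1 (by rw [hcof]; exact hcon) hA
    (fun a ha _ => hFB c δ ζ a R hR (hR1 a ha) h1 h2 h3)
  refine hR2 γ (hγ.trans_le h2) (h4.mono ?_)
  rintro a ⟨ha, h5⟩ _
  refine ⟨ha, fun h6 => ?_⟩
  have h7 : FF R ζ a ∈ {η | ∀ i < ζ, R a i → i < η} := csInf_mem ⟨ζ, fun i hi _ => hi⟩
  exact absurd (h7 γ hγ h6) (not_lt.2 h5)

/-- covering -/
theorem cover_of {c : Cardinal.{0}} {δ : Ordinal.{0}}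
    {A : Set Ordinal.{0}} {R : Ordinal.{0} → Ordinal.{0} → Prop} (hunc : ℵ₀ < δ.cof)
    (hcof : δ.cof = c) (hR : DP (fun v => R (v 0).rank (v 1).rank)) (hA : Stat A δ)
    (hR1 : ∀ a ∈ A, OtpLt {i | i < δ ∧ R a i} c.ord)
    (hR2 : ∀ i < δ, ¬ Stat {a | a ∈ A ∧ ¬ R a i} δ) : HODCover c δ := by
  intro γ hγ f hf
  have hD : ∀ x : γ.ToType, ∃ D : Set Ordinal.{0}, Club D δ ∧
      ∀ a ∈ A, a ∈ D → a < δ → R a (f (Ordinal.ToType.mk.symm x).1) := by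
    intro x
    have h1 := hR2 (f (Ordinal.ToType.mk.symm x).1) (hf _ (Ordinal.ToType.mk.symm x).2)
    unfold Stat at h1
    push Not at h1
    obtain ⟨D, hD, h2⟩ := h1
    refine ⟨D, hD, fun a ha haD haδ => ?_⟩
    by_contra hcon
    exact absurd haδ (not_lt.2 (h2 a ⟨ha, hcon⟩ haD))
  choose D hD1 hD2 using hD
  have hcl : Club (⋂ x, D x) δ := by
    refine Club.iInter' hunc ?_ hD1
    rw [Cardinal.mk_toType, hcof]
    exact Cardinal.lt_ord.1 hγ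
  obtain ⟨a, ha, haD, haδ⟩ := hA _ hcl
  have hd : DPs {i | R a i} := dp_subst_at (Q := fun x v => R x (v 0).rank) hR a
  refine ⟨ordSet δ {i | R a i}, ZFSet.mem_sep.2 ⟨mem_hodPow.2 ⟨ordSet_sub _ _,
    od_ordSet hd _⟩, ?_⟩, fun x hx => ?_⟩
  · have h1 : st (ordSet δ {i | R a i}) = {i | i < δ ∧ R a i} := by
      ext i
      exact mem_st_ordSet
    rw [h1]
    exact hR1 a ha
  · refine mem_st_ordSet.2 ⟨hf x hx, ?_⟩
    have h1 := hD2 (Ordinal.ToType.mk ⟨x, hx⟩) a ha (Set.mem_iInter.1 haD _) haδ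
    rw [OrderIso.symm_apply_apply] at h1
    exact h1

/-- local form -/
def StLocal2 : Prop := ∀ (κ κ₀ : Cardinal.{0}), StronglyCompact κ → κ ≤ κ₀ →
  (∃ α : Ordinal.{0}, IsSuccLimit α ∧ κ.ord ≤ α ∧ α ≤ κ₀.ord ∧ α.cof < κ ∧ ¬ HODSing α) →
  ∀ (c ν : Cardinal.{0}) (δ : Ordinal.{0}), c.IsRegular → (2 : Cardinal.{0}) ^ κ₀ < c →
    c.ord ≤ δ → δ < (succ c).ord → HODReg δ → (2 : Cardinal.{0}) ^ κ₀ < δ.cof → ν.IsRegular →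
    ν < κ → ((∀ ζ, c.ord ≤ ζ → ζ ≤ δ → HODReg ζ → ζ.cof = c) ∧ HODCover c δ ∧
      ∃ W, HODNFine c c.ord δ W) ∨
    ∃ η, c.ord < η ∧ η ≤ δ ∧ η.cof = δ.cof ∧
      ∀ β < η, ∃ ζ, β < ζ ∧ ζ < η ∧ HODReg ζ ∧ ζ.cof = ν

/-- the theorem -/
def StMain2 : Prop := ∀ κ : Cardinal.{0}, StronglyCompact κ → ¬ HODHypothesis →
  ∃ θ : Cardinal.{0}, ∀ c : Cardinal.{0}, c.IsRegular → θ < c →
    (∀ τ, HODNext c.ord τ → τ.cof = ℵ₀ ∨ (HODCover c τ ∧ ∃ W, HODNFine c c.ord τ W)) ∧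
    ∀ δ, c.ord ≤ δ → δ < (succ c).ord → HODReg δ →
      ((∀ ζ, c.ord ≤ ζ → ζ ≤ δ → HODReg ζ → ζ.cof = c) ∧ HODCover c δ ∧
        ∃ W, HODNFine c c.ord δ W) ∨
      (δ.cof ≤ θ ∧ ∀ μ, HODReg μ → μ.cof = c → HODNext μ δ → δ.cof = ℵ₀) ∨
      (θ < δ.cof ∧ ∀ ν : Cardinal.{0}, ν.IsRegular → ν < κ → ∃ η, c.ord < η ∧ η ≤ δ ∧
        η.cof = δ.cof ∧ ∀ β < η, ∃ ζ, β < ζ ∧ ζ < η ∧ HODReg ζ ∧ ζ.cof = ν)

theorem local_of (hCV : StCVO) (hNA : StNAO) (hRF : StRF) (hUU : StUU) (hCF : StCF)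
    (hNU : StNU) (hRC : StRC) (hRX : StRX) (hFB : StFB) (hFD : StFD) (hCE : StCE) (hCX : StCX)
    (hCA : StCA) (hTY : StTY) (hLS : StLS1) (hYS : StYS) (hYD : StYD) (hXS : StXS)
    (hNF : StNF) (hPS : StPS) (hKEY : StKEY) (hJB : StJB) (hPB : StPB) : StLocal2 := by
  intro κ κ₀ hκ hkk hα c ν δ hc h2c hcδ hδc hreg hδcof hν hνκ
  have hkc : κ ≤ δ.cof := hkk.trans ((Cardinal.cantor κ₀).trans hδcof).le
  have hunc : ℵ₀ < δ.cof := hκ.unc.trans_le hkc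
  have hκc : κ < c := hkk.trans_lt ((Cardinal.cantor κ₀).trans h2c)
  have hunc' : ℵ₀ < c := hκ.unc.trans hκc
  -- the first atom
  obtain ⟨A₁, hA₁, hA₁1, hA₁2⟩ := exists_atom hCV hNA hκ hkk hα hδcof (hNU ν hν).1
    ((hNU ν hν).2 δ (hνκ.trans_le hkc)) (fun a ha => by
      rw [Set.mem_ofPred_eq] at ha; rw [ha]; exact hνκ)
  have hA₁3 : ∀ a ∈ A₁, a < δ ∧ IsSuccLimit a ∧ a.cof = ν := fun a ha => by
    have h1 : a.cof = ν := (hA₁1 a ha).1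
    refine ⟨(hA₁1 a ha).2, one_lt_cof_iff.1 ?_, h1⟩
    rw [h1]
    exact one_lt_aleph0.trans_le hν.aleph0_le
  obtain ⟨ρ, cf, hcf⟩ := hRC δ
  rcases rho_dich hPS hKEY hJB hPB hcf (c := c) (ν := ν) hunc hreg hA₁ hA₁3 hA₁2
    (hνκ.trans_le hkc).ne hc (hνκ.trans hκc).ne with ⟨A₀, hA₀s, hA₀, hA₀2, hA₀ρ⟩ | h
  swap
  · exact Or.inr h
  left
  have hA₀3 : ∀ a ∈ A₀, a < δ ∧ a.cof = ν := fun a ha =>
    ⟨(hA₁3 a (hA₀s ha)).1, (hA₁3 a (hA₀s ha)).2.2⟩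
  obtain ⟨R, hR, hR1, hR2⟩ := cr' hRX hunc hreg hcf hA₀ (fun a ha =>
    ⟨(hA₁3 a (hA₀s ha)).1, (hA₁3 a (hA₀s ha)).2.1, hA₀ρ a ha⟩) hA₀2
  have hcof : δ.cof = c := hCE c δ A₀ R hc hunc' hcδ hδc hunc hR hA₀2.1 hR1 hR2
  refine ⟨cof_all hPB hFB hunc hcof hR hA₀2.1 hR1 hR2,
    cover_of hunc hcof hR hA₀2.1 hR1 hR2, ?_⟩
  obtain ⟨g, h, hgh⟩ := hCX c δ hc hunc' hcδ hδc hcof
  have hFF : ∀ s ∈ A₀, ∀ ζ < δ, HODReg ζ → c.ord ≤ ζ → FF R ζ s < ζ := fun s hs ζ hζδ hζr hcζ =>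
    hFB c δ ζ s R hR (hR1 s hs) hcζ hζδ.le hζr
  have hty := hTY c δ g h ρ cf R A₀ hgh hcδ hcf hFF hR2
  -- the second atom
  have hX : DPs {σ | (ℵ₀ < σ.cof ∧ σ.cof < κ) ∧ Stat A₀ σ} := by
    refine DP.and (dps_cof_mid hCF κ) ?_
    exact DP.statV (Q := fun a _ => a ∈ A₀) hA₀ 0
  have hX' : Stat {σ | (ℵ₀ < σ.cof ∧ σ.cof < κ) ∧ Stat A₀ σ} δ := by
    refine (hRF κ δ hκ hkc Unit (by simpa using Cardinal.one_lt_aleph0.trans hκ.unc)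
      (fun _ => A₀) (fun _ => hA₀2.1) (fun _ a ha => by rw [(hA₀3 a ha).2]; exact hνκ)).mono
      fun a ha _ => ⟨⟨ha.1, ha.2.1⟩, ha.2.2 ()⟩
  obtain ⟨A, hA, hA1, hA2⟩ := exists_atom hCV hNA hκ hkk hα hδcof hX hX' (fun a ha => ha.1.2)
  -- the canonical sets
  have hY : CAE c (fun i => h i ∈ A → YY c.ord ρ cf (FF R) A₀ (h i) ⊆ Im g i ∧
      UnbIn (YY c.ord ρ cf (FF R) A₀ (h i)) (h i)) := by
    refine ((hCA c hc hunc').2.2.2 _ hty).mono ?_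
    rintro i ⟨ht, C, hC1, hC2, hC3⟩ hi
    obtain ⟨⟨h1, h2⟩, h3⟩ := (hA1 _ hi).1
    obtain ⟨h4, h5⟩ := hLS c.ord δ g h ρ cf R A₀ i C hgh.nor hcf hFF ht hC1 hC2 hC3 h1 h3
    exact hYS c.ord g h ρ cf (FF R) A₀ i h4 h1 h5
  obtain ⟨S, hS, hS1, hS2, hS3⟩ := hXS c δ g h A (YY c.ord ρ cf (FF R) A₀) hgh hreg hA hA2
    (hYD c.ord ρ cf (FF R) A₀ hcf.dpr hcf.dpc (hFD R hR) hA₀) hY
  -- the ultrafilter
  have hU := hUU δ A hunc hA (fun a ha => (hA1 a ha).2) hA2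
  rw [hcof] at hU
  refine hNF c.ord δ c (UA δ A) S hU hc.aleph0_le hS ?_ ?_ ?_
  · refine ⟨ordSet δ {a | OtpLt {i | i < δ ∧ S a i} c.ord}, mem_UA (dps_otp hS) hS2, ?_⟩
    intro a ha
    exact (mem_st_ordSet.1 ha).2
  · intro i hi
    refine mem_UA ?_ (hS1 i hi)
    exact dp_subst_at (Q := fun x v => S (v 0).rank x)
      (hS.rename (fun n => if n = 0 then 1 else 0)) i
  · intro r hr hrU
    obtain ⟨ξ, hξ, hξ'⟩ := hS3 r hr (of_mem_UA hrU)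
    refine ⟨ξ, hξ, mem_UA ?_ hξ'⟩
    exact dp_subst_at (Q := fun x v => r (v 0).rank = x)
      (hr.rename (fun n => if n = 0 then 1 else 0)) ξ

/-- the cofinality of the successor cardinal of a regular cardinal in HOD -/
theorem cof_next {κ₀ : Cardinal.{0}}
    (hU : ∀ τ τ', HODReg τ → HODNext τ τ' → (2 : Cardinal.{0}) ^ κ₀ < τ'.cof →
      ∃ U, HODUnif τ τ'.cof U) (hM : StM) {c : Cardinal.{0}} (hc : c.IsRegular)
    (hθ : (2 : Cardinal.{0}) ^ κ₀ < c) {μ τ : Ordinal.{0}} (hμ : HODReg μ) (hμc : μ.cof = c)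
    (hμs : μ < (succ c).ord) (hτ : HODNext μ τ) :
    τ.cof = ℵ₀ ∨ (τ.cof = c ∧ τ < (succ c).ord) := by
  have hs : HODReg (succ c).ord := hodReg_of_regular (Cardinal.isRegular_succ hc.aleph0_le)
  have hle : τ ≤ (succ c).ord := by
    by_contra hcon
    exact hτ.2.2 _ hμs (not_le.1 hcon) hs
  by_cases h0 : τ.cof = ℵ₀
  · exact Or.inl h0
  right
  have hunc : ℵ₀ < τ.cof := lt_of_le_of_ne (aleph0_le_cof.2 hτ.2.1.1) (Ne.symm h0)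
  have hne : τ ≠ (succ c).ord := by
    rintro rfl
    have h1 := (Cardinal.isRegular_succ hc.aleph0_le).cof_ord
    obtain ⟨U, hU⟩ := hU μ _ hμ hτ (by
      rw [h1]; exact hθ.trans (Order.lt_succ c))
    refine not_unif hμ.1 hU ?_
    rw [h1]
    exact hμs
  have hlt : τ < (succ c).ord := lt_of_le_of_ne hle hne
  refine ⟨?_, hlt⟩
  have h1 : τ.cof ≤ c := by
    have h2 : τ.card < succ c := Cardinal.lt_ord.1 hlt
    exact (Ordinal.cof_le_card τ).trans (Order.lt_succ_iff.1 h2)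
  by_contra hcon
  obtain ⟨γ, hγ, h2⟩ := hM μ τ hτ hμ.1 hunc (by rw [hμc]; exact fun h => hcon h.symm)
  have h3 := h2 μ hμ hγ le_rfl
  rw [hμc] at h3
  exact hcon (le_antisymm h1 h3)

theorem main_of (hL : StLocal2) (hU : Pool.Agent.Helper73.HU.StLocal) (hM : StM) (hY : StHY) :
    StMain2 := by
  intro κ hκ hH
  have hall : ¬ ∀ α : Ordinal.{0}, IsSuccLimit α → κ.ord ≤ α → α.cof < κ → HODSing α :=
    fun h => hH (hY κ hκ.reg hκ.unc h)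
  push Not at hall
  obtain ⟨α, hα, h3, h5, h6⟩ := hall
  set κ₀ : Cardinal.{0} := succ (max κ α.card) with hκ₀
  have h4 : α ≤ κ₀.ord := by
    have h7 : α.card < κ₀ := lt_of_le_of_lt (le_max_right _ _) (Order.lt_succ _)
    exact (Cardinal.lt_ord.2 h7).le
  have hkk : κ ≤ κ₀ := (le_max_left _ _).trans (Order.le_succ _)
  have hex := (⟨α, hα, h3, h4, h5, h6⟩ : ∃ α : Ordinal.{0}, IsSuccLimit α ∧ κ.ord ≤ α ∧
    α ≤ κ₀.ord ∧ α.cof < κ ∧ ¬ HODSing α)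
  have hL' := hL κ κ₀ hκ hkk hex
  have hU' := hU κ κ₀ hκ hkk hex
  refine ⟨(2 : Cardinal.{0}) ^ κ₀, fun c hc hθ => ?_⟩
  have hcc : c.ord.cof = c := hc.cof_ord
  have hunc' : ℵ₀ < c := hκ.unc.trans_le (hkk.trans ((Cardinal.cantor κ₀).trans hθ).le)
  have hκc : κ < c := hkk.trans_lt ((Cardinal.cantor κ₀).trans hθ)
  refine ⟨fun τ hτ => ?_, fun δ h7 h8 h9 => ?_⟩
  · rcases cof_next hU'.2 hM hc hθ (hodReg_of_regular hc) hcc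
      (Cardinal.ord_lt_ord.2 (Order.lt_succ c)) hτ with h7 | ⟨h8, hlt⟩
    · exact Or.inl h7
    · right
      rcases hL' c ℵ₀ τ hc hθ hτ.1.le hlt hτ.2.1 (by rw [h8]; exact hθ)
        Cardinal.isRegular_aleph0 hκ.unc with h9 | ⟨η, h9, h10, -, h11⟩
      · exact h9.2
      · obtain ⟨ζ, h12, h13, h14, -⟩ := h11 c.ord h9
        exact absurd h14 (hτ.2.2 ζ h12 (h13.trans_le h10))
  · by_cases h10 : (2 : Cardinal.{0}) ^ κ₀ < δ.cof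
    swap
    · right
      left
      refine ⟨not_lt.1 h10, fun μ hμ hμc hμδ => ?_⟩
      rcases cof_next hU'.2 hM hc hθ hμ hμc (hμδ.1.trans h8) hμδ with h11 | ⟨h11, -⟩
      · exact h11
      · rw [h11] at h10
        exact absurd hθ h10
    by_cases hcase : ∀ ν : Cardinal.{0}, ν.IsRegular → ν < κ → ∃ η, c.ord < η ∧ η ≤ δ ∧
        η.cof = δ.cof ∧ ∀ β < η, ∃ ζ, β < ζ ∧ ζ < η ∧ HODReg ζ ∧ ζ.cof = ν
    · exact Or.inr (Or.inr ⟨h10, hcase⟩)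
    · left
      by_contra hcon
      refine hcase fun ν hν hνκ => ?_
      exact (hL' c ν δ hc hθ h7 h8 h9 h10 hν hνκ).resolve_left hcon

end Pool.Agent.Helper36.HS
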